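import Mathlib

set_option autoImplicit false

namespace Pool.Agent.Lib.P38fcf4

open Module

/-- A square matrix is irreducible tridiagonal: every entry outside the diagonal, subdiagonal and
superdiagonal is zero, and every entry on the subdiagonal and the superdiagonal is nonzero. -/
def IrredTridiagonal {K : Type*} [Field K] {n : ℕ} (M : Matrix (Fin n) (Fin n) K) : Prop :=
  (∀ i j : Fin n, (i : ℕ) + 1 < j ∨ (j : ℕ) + 1 < i → M i j = 0) ∧
    ∀ i j : Fin n, (i : ℕ) + 1 = j ∨ (j : ℕ) + 1 = i → M i j ≠ 0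

/-- `A, B` is a Leonard pair on `V` (`B` plays the role of `A^*`): in some basis the matrix of `A`
is irreducible tridiagonal and the matrix of `B` is diagonal, and in some basis the matrix of `B`
is irreducible tridiagonal and the matrix of `A` is diagonal. -/
def IsLeonardPair {K : Type*} [Field K] {V : Type*} [AddCommGroup V] [Module K V]
    (A B : Module.End K V) : Prop :=
  (∃ b : Basis (Fin (finrank K V)) K V,
      IrredTridiagonal (LinearMap.toMatrix b b A) ∧ (LinearMap.toMatrix b b B).IsDiag) ∧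
    ∃ b : Basis (Fin (finrank K V)) K V,
      IrredTridiagonal (LinearMap.toMatrix b b B) ∧ (LinearMap.toMatrix b b A).IsDiag

/-- The two Askey-Wilson relations for `X, Y` with scalars
`β, γ, γ', ρ, ρ', ω, η, η'` (the primes are the stars of the text). -/
def AWRelations {K : Type*} [Field K] {R : Type*} [Ring R] [Algebra K R] (X Y : R)
    (β γ γ' ρ ρ' ω η η' : K) : Prop :=
  X ^ 2 * Y - β • (X * Y * X) + Y * X ^ 2 - γ • (X * Y + Y * X) - ρ • Y =
      γ' • X ^ 2 + ω • X + η • 1 ∧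
    Y ^ 2 * X - β • (Y * X * Y) + X * Y ^ 2 - γ' • (Y * X + X * Y) - ρ' • X =
      γ • Y ^ 2 + ω • Y + η' • 1

/-- `X, Y` satisfy the Askey-Wilson relations (for some scalars). -/
def SatisfyAW {K : Type*} [Field K] {V : Type*} [AddCommGroup V] [Module K V]
    (X Y : Module.End K V) : Prop :=
  ∃ β γ γ' ρ ρ' ω η η' : K, AWRelations X Y β γ γ' ρ ρ' ω η η'

/-- Conditions (i)-(iv) on the third element `E` (which is `A^ε` in the text), for the pair
`A, B`. -/
def Compatible {K : Type*} [Field K] {V : Type*} [AddCommGroup V] [Module K V]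
    (A B E : Module.End K V) : Prop :=
  E ∈ Submodule.span K {1, A, B, A * B, B * A} ∧
    A ∈ Submodule.span K {1, B, E, B * E, E * B} ∧
    B ∈ Submodule.span K {1, E, A, E * A, A * E} ∧
    SatisfyAW A B ∧ SatisfyAW B E ∧ SatisfyAW E A

/-- The `q`-commutator family: `A, B` satisfy the Askey-Wilson relations with scalars
`β ≠ 2, γ, γ', ρ, ρ', …`, one has `β = t + t⁻¹` with `t` in the field, and, with the centred
elements `A - τ`, `B - τ'` where `γ = (2 - β) τ` and `γ' = (2 - β) τ'`, the element `E` is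
`x ((A - τ) (B - τ') - t (B - τ') (A - τ)) + y` with `x ≠ 0`; moreover `ρ + γ τ ≠ 0` and
`ρ' + γ' τ' ≠ 0`. -/
def FamilyOne {K : Type*} [Field K] {V : Type*} [AddCommGroup V] [Module K V]
    (A B E : Module.End K V) : Prop :=
  ∃ β γ γ' ρ ρ' ω η η' t τ τ' x y : K, AWRelations A B β γ γ' ρ ρ' ω η η' ∧ β ≠ 2 ∧ t ≠ 0 ∧
    β = t + t⁻¹ ∧ γ = (2 - β) * τ ∧ γ' = (2 - β) * τ' ∧ ρ + γ * τ ≠ 0 ∧ ρ' + γ' * τ' ≠ 0 ∧
    x ≠ 0 ∧
    E = x • ((A - τ • 1) * (B - τ' • 1) - t • ((B - τ' • 1) * (A - τ • 1))) + y • 1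

/-- The Lie algebra family: `A, B` satisfy the Askey-Wilson relations with `β = 2`,
`γ = γ' = 0`, `ρ, ρ', …`, and `E = x₀ + x₁ A + x₂ B + x₃ (A B - B A)` with
`x₁² ≠ ρ' x₃²` and `x₂² ≠ ρ x₃²`. -/
def FamilyTwo {K : Type*} [Field K] {V : Type*} [AddCommGroup V] [Module K V]
    (A B E : Module.End K V) : Prop :=
  ∃ ρ ρ' ω η η' x0 x1 x2 x3 : K, AWRelations A B 2 0 0 ρ ρ' ω η η' ∧
    x1 ^ 2 ≠ ρ' * x3 ^ 2 ∧ x2 ^ 2 ≠ ρ * x3 ^ 2 ∧
    E = x0 • 1 + x1 • A + x2 • B + x3 • (A * B - B * A)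

/-- The linear family: `E = x₀ + x₁ A + x₂ B` with `x₁, x₂ ≠ 0`, where either `dim V = 3`, or
`A, B` satisfy the Askey-Wilson relations with `β = 2` and `x₁ γ = x₂ γ'`. -/
def FamilyThree {K : Type*} [Field K] {V : Type*} [AddCommGroup V] [Module K V]
    (A B E : Module.End K V) : Prop :=
  ∃ x0 x1 x2 : K, x1 ≠ 0 ∧ x2 ≠ 0 ∧ E = x0 • 1 + x1 • A + x2 • B ∧
    (finrank K V = 3 ∨
      ∃ γ γ' ρ ρ' ω η η' : K, AWRelations A B 2 γ γ' ρ ρ' ω η η' ∧ x1 * γ = x2 * γ')

end Pool.Agent.Lib.P38fcf4
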