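import Mathlib
import Pool.Agent.Lib.P38fcf4.Defs

set_option autoImplicit false

namespace Pool.Agent.Lib.P38fcf4

variable {K : Type*} [Field K] {R : Type*} [Ring R] [Algebra K R]

theorem AWRelations.symm {X Y : R} {β γ γ' ρ ρ' ω η η' : K}
    (h : AWRelations X Y β γ γ' ρ ρ' ω η η') : AWRelations Y X β γ' γ ρ' ρ ω η' η :=
  ⟨h.2, h.1⟩

/-- the general element of the span -/
def elt (x0 x1 x2 x3 x4 : K) (A B : R) : R :=
  x0 • 1 + x1 • A + x2 • B + x3 • (A * B) + x4 • (B * A)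

theorem elt_symm (x0 x1 x2 x3 x4 : K) (A B : R) :
    elt x0 x1 x2 x3 x4 A B = elt x0 x2 x1 x4 x3 B A := by
  unfold elt
  abel

theorem key_iii {A B : R} {β γ γ' ρ ρ' ω η η' x0 x1 x2 x3 x4 : K}
    (h : AWRelations A B β γ γ' ρ ρ' ω η η')
    (h1 : x3 ^ 2 + x4 ^ 2 + β * x3 * x4 = 0)
    (h2 : x1 * (x3 + x4) + γ' * x3 * x4 = 0)
    (h3 : x2 * (x3 + x4) + γ * x3 * x4 = 0) :
    x2 • elt x0 x1 x2 x3 x4 A B + x3 • (elt x0 x1 x2 x3 x4 A B * A)
        + x4 • (A * elt x0 x1 x2 x3 x4 A B)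
      = (x2 ^ 2 + ρ * x3 * x4) • B + (x1 * x2 + (x3 + x4) * x0 + ω * x3 * x4) • A
        + (x0 * x2 + η * x3 * x4) • 1 := by
  have hA := h.1
  have e : x2 • elt x0 x1 x2 x3 x4 A B + x3 • (elt x0 x1 x2 x3 x4 A B * A)
        + x4 • (A * elt x0 x1 x2 x3 x4 A B)
      - ((x2 ^ 2 + ρ * x3 * x4) • B + (x1 * x2 + (x3 + x4) * x0 + ω * x3 * x4) • A
        + (x0 * x2 + η * x3 * x4) • 1)
      = (x3 * x4) • ((A ^ 2 * B - β • (A * B * A) + B * A ^ 2 - γ • (A * B + B * A) - ρ • B)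
          - (γ' • A ^ 2 + ω • A + η • 1))
        + (x3 ^ 2 + x4 ^ 2 + β * x3 * x4) • (A * B * A)
        + (x1 * (x3 + x4) + γ' * x3 * x4) • A ^ 2
        + (x2 * (x3 + x4) + γ * x3 * x4) • (A * B + B * A) := by
    unfold elt
    simp only [pow_two, mul_add, add_mul, smul_mul_assoc, mul_smul_comm, one_mul, mul_one,
      mul_assoc]
    module
  rw [hA, h1, h2, h3, sub_self, smul_zero, zero_smul, zero_smul, zero_smul] at e
  rw [← sub_eq_zero, e]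
  simp

theorem key_ii {A B : R} {β γ γ' ρ ρ' ω η η' x0 x1 x2 x3 x4 : K}
    (h : AWRelations A B β γ γ' ρ ρ' ω η η')
    (h1 : x3 ^ 2 + x4 ^ 2 + β * x3 * x4 = 0)
    (h2 : x1 * (x3 + x4) + γ' * x3 * x4 = 0)
    (h3 : x2 * (x3 + x4) + γ * x3 * x4 = 0) :
    x1 • elt x0 x1 x2 x3 x4 A B + x4 • (elt x0 x1 x2 x3 x4 A B * B)
        + x3 • (B * elt x0 x1 x2 x3 x4 A B)
      = (x1 ^ 2 + ρ' * x3 * x4) • A + (x1 * x2 + (x3 + x4) * x0 + ω * x3 * x4) • B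
        + (x0 * x1 + η' * x3 * x4) • 1 := by
  have := key_iii (x0 := x0) (x1 := x2) (x2 := x1) (x3 := x4) (x4 := x3) h.symm
    (by linear_combination h1) (by linear_combination h3) (by linear_combination h2)
  rw [← elt_symm] at this
  rw [this]
  have e1 : x1 ^ 2 + ρ' * x4 * x3 = x1 ^ 2 + ρ' * x3 * x4 := by ring
  have e2 : x2 * x1 + (x4 + x3) * x0 + ω * x4 * x3 = x1 * x2 + (x3 + x4) * x0 + ω * x3 * x4 := by
    ring
  have e3 : x0 * x1 + η' * x4 * x3 = x0 * x1 + η' * x3 * x4 := by ring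
  rw [e1, e2, e3]

/-- The Askey-Wilson relations for `A, E` in the main case `x₃ x₄ ≠ 0`. -/
theorem key_iv {A B : R} {β γ γ' ρ ρ' ω η η' x0 x1 x2 x3 x4 : K}
    (h : AWRelations A B β γ γ' ρ ρ' ω η η') (hx3 : x3 ≠ 0) (hx4 : x4 ≠ 0)
    (h1 : x3 ^ 2 + x4 ^ 2 + β * x3 * x4 = 0)
    (h2 : x1 * (x3 + x4) + γ' * x3 * x4 = 0)
    (h3 : x2 * (x3 + x4) + γ * x3 * x4 = 0) :
    ∃ γE ρE ωE ηE ηE' : K, AWRelations A (elt x0 x1 x2 x3 x4 A B) β γ γE ρ ρE ωE ηE ηE' := by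
  have hc : x1 * (2 - β) + (x3 + x4) * γ' = 0 := by
    have : x3 * x4 * (x1 * (2 - β) + (x3 + x4) * γ') = 0 := by
      linear_combination (x3 + x4) * h2 - x1 * h1
    rcases mul_eq_zero.mp this with h' | h'
    · rcases mul_eq_zero.mp h' with h'' | h''
      · exact absurd h'' hx3
      · exact absurd h'' hx4
    · exact h'
  obtain ⟨N, hN⟩ : ∃ N, N = x2 ^ 2 + ρ * x3 * x4 := ⟨_, rfl⟩
  obtain ⟨N', hN'⟩ : ∃ N', N' = x1 ^ 2 + ρ' * x3 * x4 := ⟨_, rfl⟩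
  obtain ⟨u, hu⟩ : ∃ u, u = x1 * x2 + (x3 + x4) * x0 + ω * x3 * x4 := ⟨_, rfl⟩
  obtain ⟨v, hv⟩ : ∃ v, v = x0 * x2 + η * x3 * x4 := ⟨_, rfl⟩
  obtain ⟨v', hv'⟩ : ∃ v', v' = x0 * x1 + η' * x3 * x4 := ⟨_, rfl⟩
  obtain ⟨E, hE⟩ : ∃ E, E = elt x0 x1 x2 x3 x4 A B := ⟨_, rfl⟩
  have r3 := key_iii (x0 := x0) h h1 h2 h3
  have r2 := key_ii (x0 := x0) h h1 h2 h3
  rw [← hN, ← hu, ← hv, ← hE] at r3
  rw [← hN', ← hu, ← hv', ← hE] at r2
  refine ⟨u * (x3 + x4) / (x3 * x4), (N * N' - u ^ 2) / (x3 * x4),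
    (u * x2 - N * x1 + v * (x3 + x4)) / (x3 * x4), -ρ * x0 + x2 * η,
    (N * v' - u * v) / (x3 * x4), ?_, ?_⟩
  · -- first relation
    have hA := h.1
    rw [← hE]
    have e : (A ^ 2 * E - β • (A * E * A) + E * A ^ 2 - γ • (A * E + E * A) - ρ • E)
        - ((x0 * (2 - β) - 2 * γ * x1 + x2 * γ' + (x3 + x4) * ω) • A ^ 2
          + (-2 * γ * x0 - ρ * x1 + x2 * ω + (x3 + x4) * η) • A + (-ρ * x0 + x2 * η) • 1)
        = x2 • ((A ^ 2 * B - β • (A * B * A) + B * A ^ 2 - γ • (A * B + B * A) - ρ • B)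
              - (γ' • A ^ 2 + ω • A + η • 1))
          + x3 • (A * ((A ^ 2 * B - β • (A * B * A) + B * A ^ 2 - γ • (A * B + B * A) - ρ • B)
              - (γ' • A ^ 2 + ω • A + η • 1)))
          + x4 • (((A ^ 2 * B - β • (A * B * A) + B * A ^ 2 - γ • (A * B + B * A) - ρ • B)
              - (γ' • A ^ 2 + ω • A + η • 1)) * A)
          + (x1 * (2 - β) + (x3 + x4) * γ') • A ^ 3 := by
      rw [hE]
      unfold elt
      simp only [pow_succ, pow_zero, mul_add, add_mul, mul_sub, sub_mul, smul_mul_assoc,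
        mul_smul_comm, one_mul, mul_one, mul_assoc]
      module
    rw [hA, hc, sub_self, mul_zero, zero_mul, smul_zero, smul_zero, smul_zero, zero_smul] at e
    have e' : A ^ 2 * E - β • (A * E * A) + E * A ^ 2 - γ • (A * E + E * A) - ρ • E
        = ((x0 * (2 - β) - 2 * γ * x1 + x2 * γ' + (x3 + x4) * ω) • A ^ 2
          + (-2 * γ * x0 - ρ * x1 + x2 * ω + (x3 + x4) * η) • A + (-ρ * x0 + x2 * η) • 1) := by
      rw [← sub_eq_zero, e]
      simp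
    rw [e']
    have c1 : x0 * (2 - β) - 2 * γ * x1 + x2 * γ' + (x3 + x4) * ω = u * (x3 + x4) / (x3 * x4) := by
      field_simp
      rw [hu]
      linear_combination (-x0) * h1 + (-2 * x1) * h3 + (x2) * h2
    have c2 : -2 * γ * x0 - ρ * x1 + x2 * ω + (x3 + x4) * η
        = (u * x2 - N * x1 + v * (x3 + x4)) / (x3 * x4) := by
      field_simp
      rw [hu, hN, hv]
      linear_combination (-2 * x0) * h3
    rw [c1, c2]
  · rw [← hE]
    have hxx : x3 * x4 ≠ 0 := mul_ne_zero hx3 hx4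
    -- multiply by x3 * x4
    have e : (x3 * x4) • ((E ^ 2 * A - β • (E * A * E) + A * E ^ 2
          - (u * (x3 + x4) / (x3 * x4)) • (E * A + A * E)
          - ((N * N' - u ^ 2) / (x3 * x4)) • A)
        - (γ • E ^ 2 + ((u * x2 - N * x1 + v * (x3 + x4)) / (x3 * x4)) • E
            + ((N * v' - u * v) / (x3 * x4)) • 1))
        = x4 • (E * (x2 • E + x3 • (E * A) + x4 • (A * E) - (N • B + u • A + v • 1)))
          + x3 • ((x2 • E + x3 • (E * A) + x4 • (A * E) - (N • B + u • A + v • 1)) * E)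
          + N • ((x1 • E + x4 • (E * B) + x3 • (B * E)) - (N' • A + u • B + v' • 1))
          - u • ((x2 • E + x3 • (E * A) + x4 • (A * E)) - (N • B + u • A + v • 1))
          - (x3 ^ 2 + x4 ^ 2 + β * x3 * x4) • (E * A * E)
          - (x2 * (x3 + x4) + γ * x3 * x4) • (E ^ 2) := by
      simp only [smul_sub, smul_add, smul_smul]
      have d1 : x3 * x4 * (u * (x3 + x4) / (x3 * x4)) = u * (x3 + x4) := by field_simp
      have d2 : x3 * x4 * ((N * N' - u ^ 2) / (x3 * x4)) = N * N' - u ^ 2 := by field_simp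
      have d3 : x3 * x4 * ((u * x2 - N * x1 + v * (x3 + x4)) / (x3 * x4))
          = u * x2 - N * x1 + v * (x3 + x4) := by field_simp
      have d4 : x3 * x4 * ((N * v' - u * v) / (x3 * x4)) = N * v' - u * v := by field_simp
      rw [d1, d2, d3, d4]
      simp only [pow_succ, pow_zero, mul_add, add_mul, mul_sub, sub_mul, smul_mul_assoc,
        mul_smul_comm, one_mul, mul_one, mul_assoc]
      module
    rw [r3, r2, h1, h3, sub_self, sub_self, mul_zero, zero_mul, smul_zero, smul_zero, smul_zero,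
      smul_zero, zero_smul, zero_smul] at e
    have e' : (x3 * x4) • ((E ^ 2 * A - β • (E * A * E) + A * E ^ 2
          - (u * (x3 + x4) / (x3 * x4)) • (E * A + A * E)
          - ((N * N' - u ^ 2) / (x3 * x4)) • A)
        - (γ • E ^ 2 + ((u * x2 - N * x1 + v * (x3 + x4)) / (x3 * x4)) • E
            + ((N * v' - u * v) / (x3 * x4)) • 1)) = 0 := by
      rw [e]; simp
    have e'' := (smul_eq_zero_iff_right hxx).mp e'
    exact sub_eq_zero.mp e''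

/-- The Askey-Wilson relations for `A, x₀ + x₁ A + x₂ B`, when `β = 2` and `x₁ γ = x₂ γ'`. -/
theorem keyC {A B : R} {β γ γ' ρ ρ' ω η η' x0 x1 x2 : K}
    (h : AWRelations A B β γ γ' ρ ρ' ω η η') (hβ : β = 2) (hx : x1 * γ = x2 * γ') :
    ∃ γE ρE ωE ηE ηE' : K, AWRelations A (elt x0 x1 x2 0 0 A B) β γ γE ρ ρE ωE ηE ηE' := by
  subst hβ
  obtain ⟨γE, hγE⟩ : ∃ γE, γE = x2 * γ' - 2 * γ * x1 := ⟨_, rfl⟩
  obtain ⟨ωE, hωE⟩ : ∃ ωE, ωE = x2 * ω - 2 * γ * x0 - ρ * x1 := ⟨_, rfl⟩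
  refine ⟨γE, -x1 * x2 * ω + x2 ^ 2 * ρ' - 2 * x0 * γE - 2 * γ * x0 * x1 - x1 * ωE, ωE,
    -ρ * x0 + x2 * η, -x1 * x2 * η + x2 ^ 2 * η' - γ * x0 ^ 2 - x0 * ωE, ?_, ?_⟩
  · have hA := h.1
    rw [← sub_eq_zero] at hA ⊢
    have e : x2 • (A ^ 2 * B - (2 : K) • (A * B * A) + B * A ^ 2 - γ • (A * B + B * A) - ρ • B
        - (γ' • A ^ 2 + ω • A + η • 1)) = 0 := by
      rw [hA, smul_zero]
    rw [← e, hγE, hωE]
    unfold elt
    simp only [pow_succ, pow_zero, mul_add, add_mul, mul_sub, sub_mul, smul_mul_assoc,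
      mul_smul_comm, one_mul, mul_one, mul_assoc]
    module
  · have hA := h.1
    have hB := h.2
    rw [← sub_eq_zero] at hA hB ⊢
    have e : (-x1 * x2) • (A ^ 2 * B - (2 : K) • (A * B * A) + B * A ^ 2 - γ • (A * B + B * A)
        - ρ • B - (γ' • A ^ 2 + ω • A + η • 1))
        + (x2 ^ 2) • (B ^ 2 * A - (2 : K) • (B * A * B) + A * B ^ 2 - γ' • (B * A + A * B)
        - ρ' • A - (γ • B ^ 2 + ω • B + η' • 1)) = 0 := by
      rw [hA, hB, smul_zero, smul_zero, add_zero]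
    have e2 : (-(3 * x1 * (x2 * γ' - x1 * γ))) • A ^ 2 = 0 := by
      rw [hx, sub_self, mul_zero, neg_zero, zero_smul]
    rw [← e, ← sub_eq_zero, ← e2, hγE, hωE]
    unfold elt
    simp only [pow_succ, pow_zero, mul_add, add_mul, mul_sub, sub_mul, smul_mul_assoc,
      mul_smul_comm, one_mul, mul_one, mul_assoc]
    module

/-- Necessary condition in the case `x₃ = x₄ = 0`. -/
theorem keyC' {A B : R} {γ γ' ρ ρ' ω η η' x0 x1 x2 γE ρE ωE ηE ηE' : K}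
    (h : AWRelations A B 2 γ γ' ρ ρ' ω η η')
    (hE : AWRelations A (elt x0 x1 x2 0 0 A B) 2 γ γE ρ ρE ωE ηE ηE')
    (hγE : γE = x2 * γ' - 2 * γ * x1) (hωE : ωE = x2 * ω - 2 * γ * x0 - ρ * x1) :
    (-(3 * x1 * (x2 * γ' - x1 * γ))) • A ^ 2
      + (-x1 * x2 * ω + x2 ^ 2 * ρ' - 2 * x0 * γE - ρE - 2 * γ * x0 * x1 - x1 * ωE) • A
      + (-x1 * x2 * η + x2 ^ 2 * η' - γ * x0 ^ 2 - x0 * ωE - ηE') • 1 = 0 := by
  have hA := h.1
  have hB := h.2
  have h2 := hE.2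
  rw [← sub_eq_zero] at hA hB h2
  have e : (-x1 * x2) • (A ^ 2 * B - (2 : K) • (A * B * A) + B * A ^ 2 - γ • (A * B + B * A)
        - ρ • B - (γ' • A ^ 2 + ω • A + η • 1))
        + (x2 ^ 2) • (B ^ 2 * A - (2 : K) • (B * A * B) + A * B ^ 2 - γ' • (B * A + A * B)
        - ρ' • A - (γ • B ^ 2 + ω • B + η' • 1)) = 0 := by
    rw [hA, hB, smul_zero, smul_zero, add_zero]
  obtain ⟨E, hEE⟩ : ∃ E, E = elt x0 x1 x2 0 0 A B := ⟨_, rfl⟩
  rw [← hEE] at h2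
  have e3 : (-(3 * x1 * (x2 * γ' - x1 * γ))) • A ^ 2
      + (-x1 * x2 * ω + x2 ^ 2 * ρ' - 2 * x0 * γE - ρE - 2 * γ * x0 * x1 - x1 * ωE) • A
      + (-x1 * x2 * η + x2 ^ 2 * η' - γ * x0 ^ 2 - x0 * ωE - ηE') • (1 : R)
      = (E ^ 2 * A - (2 : K) • (E * A * E) + A * E ^ 2 - γE • (E * A + A * E) - ρE • A
        - (γ • E ^ 2 + ωE • E + ηE' • 1))
        - ((-x1 * x2) • (A ^ 2 * B - (2 : K) • (A * B * A) + B * A ^ 2 - γ • (A * B + B * A)
        - ρ • B - (γ' • A ^ 2 + ω • A + η • 1))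
        + (x2 ^ 2) • (B ^ 2 * A - (2 : K) • (B * A * B) + A * B ^ 2 - γ' • (B * A + A * B)
        - ρ' • A - (γ • B ^ 2 + ω • B + η' • 1))) := by
    rw [hEE, hγE, hωE]
    unfold elt
    simp only [pow_succ, pow_zero, mul_add, add_mul, mul_sub, sub_mul, smul_mul_assoc,
      mul_smul_comm, one_mul, mul_one, mul_assoc]
    module
  rw [e3, h2, e, sub_zero]

theorem mem_span_five {a0 a1 a2 a3 a4 Z : R} {c0 c1 c2 c3 c4 : K}
    (h : Z = c0 • a0 + c1 • a1 + c2 • a2 + c3 • a3 + c4 • a4) :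
    Z ∈ Submodule.span K {a0, a1, a2, a3, a4} := by
  rw [h]
  refine add_mem (add_mem (add_mem (add_mem ?_ ?_) ?_) ?_) ?_ <;>
  exact Submodule.smul_mem _ _ (Submodule.subset_span (by simp))

theorem exists_of_mem_span_five {a0 a1 a2 a3 a4 Z : R}
    (h : Z ∈ Submodule.span K {a0, a1, a2, a3, a4}) :
    ∃ c0 c1 c2 c3 c4 : K, Z = c0 • a0 + c1 • a1 + c2 • a2 + c3 • a3 + c4 • a4 := by
  rw [Submodule.mem_span_insert] at h
  obtain ⟨c0, Z1, h1, rfl⟩ := h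
  rw [Submodule.mem_span_insert] at h1
  obtain ⟨c1, Z2, h2, rfl⟩ := h1
  rw [Submodule.mem_span_insert] at h2
  obtain ⟨c2, Z3, h3, rfl⟩ := h2
  rw [Submodule.mem_span_insert] at h3
  obtain ⟨c3, Z4, h4, rfl⟩ := h3
  rw [Submodule.mem_span_singleton] at h4
  obtain ⟨c4, rfl⟩ := h4
  exact ⟨c0, c1, c2, c3, c4, by abel⟩

end Pool.Agent.Lib.P38fcf4
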