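import Mathlib
import Pool.Agent.Lib.P38fcf4.Defs
import Pool.Agent.Lib.P38fcf4.Alg

set_option autoImplicit false

namespace Pool.Agent.Lib.P38fcf4

variable {K : Type*} [Field K]

theorem quad_zero {c0 c1 c2 t0 t1 t2 : K} (h01 : t0 ≠ t1) (h02 : t0 ≠ t2) (h12 : t1 ≠ t2)
    (e0 : c2 * t0 ^ 2 + c1 * t0 + c0 = 0) (e1 : c2 * t1 ^ 2 + c1 * t1 + c0 = 0)
    (e2 : c2 * t2 ^ 2 + c1 * t2 + c0 = 0) : c2 = 0 ∧ c1 = 0 ∧ c0 = 0 := by
  have s01 : t0 - t1 ≠ 0 := sub_ne_zero.mpr h01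
  have s02 : t0 - t2 ≠ 0 := sub_ne_zero.mpr h02
  have s12 : t1 - t2 ≠ 0 := sub_ne_zero.mpr h12
  have f1 : c2 * (t0 + t1) + c1 = 0 := by
    apply mul_left_cancel₀ s01
    linear_combination e0 - e1
  have f2 : c2 * (t1 + t2) + c1 = 0 := by
    apply mul_left_cancel₀ s12
    linear_combination e1 - e2
  have g : c2 = 0 := by
    apply mul_left_cancel₀ s02
    linear_combination f1 - f2
  subst g
  have g1 : c1 = 0 := by linear_combination f1
  subst g1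
  exact ⟨rfl, rfl, by linear_combination e0⟩

theorem cubic_zero {c0 c1 c2 c3 t0 t1 t2 t3 : K} (h01 : t0 ≠ t1) (h02 : t0 ≠ t2) (h03 : t0 ≠ t3)
    (h12 : t1 ≠ t2) (h13 : t1 ≠ t3) (h23 : t2 ≠ t3)
    (e0 : c3 * t0 ^ 3 + c2 * t0 ^ 2 + c1 * t0 + c0 = 0)
    (e1 : c3 * t1 ^ 3 + c2 * t1 ^ 2 + c1 * t1 + c0 = 0)
    (e2 : c3 * t2 ^ 3 + c2 * t2 ^ 2 + c1 * t2 + c0 = 0)
    (e3 : c3 * t3 ^ 3 + c2 * t3 ^ 2 + c1 * t3 + c0 = 0) :
    c3 = 0 ∧ c2 = 0 ∧ c1 = 0 ∧ c0 = 0 := by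
  have s01 : t0 - t1 ≠ 0 := sub_ne_zero.mpr h01
  have s02 : t0 - t2 ≠ 0 := sub_ne_zero.mpr h02
  have s03 : t0 - t3 ≠ 0 := sub_ne_zero.mpr h03
  have s12 : t1 - t2 ≠ 0 := sub_ne_zero.mpr h12
  have s13 : t1 - t3 ≠ 0 := sub_ne_zero.mpr h13
  -- divided differences with respect to t0
  have f1 : c3 * t1 ^ 2 + (c3 * t0 + c2) * t1 + (c3 * t0 ^ 2 + c2 * t0 + c1) = 0 := by
    apply mul_left_cancel₀ s01
    linear_combination e0 - e1
  have f2 : c3 * t2 ^ 2 + (c3 * t0 + c2) * t2 + (c3 * t0 ^ 2 + c2 * t0 + c1) = 0 := by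
    apply mul_left_cancel₀ s02
    linear_combination e0 - e2
  have f3 : c3 * t3 ^ 2 + (c3 * t0 + c2) * t3 + (c3 * t0 ^ 2 + c2 * t0 + c1) = 0 := by
    apply mul_left_cancel₀ s03
    linear_combination e0 - e3
  obtain ⟨g3, g2, g1⟩ := quad_zero h12 h13 h23 f1 f2 f3
  subst g3
  have g2' : c2 = 0 := by linear_combination g2
  subst g2'
  have g1' : c1 = 0 := by linear_combination g1
  subst g1'
  exact ⟨rfl, rfl, rfl, by linear_combination e0⟩

theorem core0_aux {t0 t1 t2 x2 x4 z1 z3 z4 : K} (h01 : t0 ≠ t1) (h02 : t0 ≠ t2) (h12 : t1 ≠ t2)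
    (e01 : (z1 + z4 * t0 + z3 * t1) * (x2 + x4 * t1) = 1)
    (e10 : (z1 + z4 * t1 + z3 * t0) * (x2 + x4 * t0) = 1)
    (e12 : (z1 + z4 * t1 + z3 * t2) * (x2 + x4 * t2) = 1)
    (e21 : (z1 + z4 * t2 + z3 * t1) * (x2 + x4 * t1) = 1) : x4 = 0 := by
  have s02 : t0 - t2 ≠ 0 := sub_ne_zero.mpr h02
  have hu : x2 + x4 * t1 ≠ 0 := by
    intro h
    rw [h, mul_zero] at e01
    exact zero_ne_one e01
  have hz4 : z4 = 0 := by
    apply mul_left_cancel₀ (mul_ne_zero s02 hu)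
    linear_combination e01 - e21
  subst hz4
  obtain ⟨g2, g1, g0⟩ := quad_zero (c2 := z3 * x4) (c1 := z1 * x4 + z3 * x2) (c0 := z1 * x2 - 1)
    h01 h02 h12 (by linear_combination e10) (by linear_combination e01)
    (by linear_combination e12)
  by_contra hx4
  have hz3 : z3 = 0 := by
    rcases mul_eq_zero.mp g2 with h | h
    · exact h
    · exact absurd h hx4
  subst hz3
  have hz1 : z1 = 0 := by
    have : z1 * x4 = 0 := by linear_combination g1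
    rcases mul_eq_zero.mp this with h | h
    · exact h
    · exact absurd h hx4
  subst hz1
  have : (1 : K) = 0 := by linear_combination -g0
  exact one_ne_zero this

theorem core0 {t0 t1 t2 x2 x3 x4 z1 z3 z4 : K} (h01 : t0 ≠ t1) (h02 : t0 ≠ t2) (h12 : t1 ≠ t2)
    (e01 : (z1 + z4 * t0 + z3 * t1) * (x2 + x3 * t0 + x4 * t1) = 1)
    (e10 : (z1 + z4 * t1 + z3 * t0) * (x2 + x3 * t1 + x4 * t0) = 1)
    (e12 : (z1 + z4 * t1 + z3 * t2) * (x2 + x3 * t1 + x4 * t2) = 1)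
    (e21 : (z1 + z4 * t2 + z3 * t1) * (x2 + x3 * t2 + x4 * t1) = 1) :
    (x3 = 0 ∧ x4 = 0 ∧ x2 ≠ 0) ∨ (x3 ≠ 0 ∧ x4 ≠ 0) := by
  by_cases hx3 : x3 = 0
  · left
    subst hx3
    have hx4 : x4 = 0 := core0_aux (x2 := x2) (z1 := z1) (z3 := z3) (z4 := z4) h01 h02 h12
      (by linear_combination e01) (by linear_combination e10) (by linear_combination e12)
      (by linear_combination e21)
    subst hx4
    refine ⟨rfl, rfl, ?_⟩
    intro h
    subst h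
    have : (1 : K) = 0 := by linear_combination -e01
    exact one_ne_zero this
  · right
    refine ⟨hx3, ?_⟩
    intro hx4
    subst hx4
    exact hx3 (core0_aux (z1 := z1) (z3 := z4) (z4 := z3) (x2 := x2) h01 h02 h12
      (by linear_combination e10) (by linear_combination e01) (by linear_combination e21)
      (by linear_combination e12))

/-- the main scalar lemma in the case `x₃ x₄ ≠ 0` -/
theorem core1 {t0 t1 t2 x2 x3 x4 z1 z3 z4 β γ ρ : K}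
    (h01 : t0 ≠ t1) (h02 : t0 ≠ t2) (h12 : t1 ≠ t2)
    (hx3 : x3 ≠ 0) (hx4 : x4 ≠ 0)
    (e01 : (z1 + z4 * t0 + z3 * t1) * (x2 + x3 * t0 + x4 * t1) = 1)
    (e10 : (z1 + z4 * t1 + z3 * t0) * (x2 + x3 * t1 + x4 * t0) = 1)
    (e12 : (z1 + z4 * t1 + z3 * t2) * (x2 + x3 * t1 + x4 * t2) = 1)
    (e21 : (z1 + z4 * t2 + z3 * t1) * (x2 + x3 * t2 + x4 * t1) = 1)
    (P01 : t0 ^ 2 - β * t0 * t1 + t1 ^ 2 - γ * (t0 + t1) - ρ = 0)
    (P12 : t1 ^ 2 - β * t1 * t2 + t2 ^ 2 - γ * (t1 + t2) - ρ = 0)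
    (hor : (∃ t3, t1 ≠ t3 ∧ (z1 + z4 * t2 + z3 * t3) * (x2 + x3 * t2 + x4 * t3) = 1 ∧
        t2 ^ 2 - β * t2 * t3 + t3 ^ 2 - γ * (t2 + t3) - ρ = 0) ∨
      x3 ^ 2 + x4 ^ 2 + β * x3 * x4 = 0) :
    ∃ k, k ≠ 0 ∧ z3 = k * x3 ∧ z4 = k * x4 ∧ x3 ^ 2 + x4 ^ 2 + β * x3 * x4 = 0 ∧
      ∀ x y, (z1 + z4 * x + z3 * y) * (x2 + x3 * x + x4 * y) - 1 =
        k * x3 * x4 * (x ^ 2 - β * x * y + y ^ 2 - γ * (x + y) - ρ) := by
  have s01 : t0 - t1 ≠ 0 := sub_ne_zero.mpr h01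
  have s02 : t0 - t2 ≠ 0 := sub_ne_zero.mpr h02
  have s12 : t1 - t2 ≠ 0 := sub_ne_zero.mpr h12
  -- antisymmetric part
  have f0 : (z4 * x3 - z3 * x4) * (t0 + t1) + ((z1 * x3 + z4 * x2) - (z1 * x4 + z3 * x2)) = 0 := by
    apply mul_left_cancel₀ s01
    linear_combination e01 - e10
  have f1 : (z4 * x3 - z3 * x4) * (t1 + t2) + ((z1 * x3 + z4 * x2) - (z1 * x4 + z3 * x2)) = 0 := by
    apply mul_left_cancel₀ s12
    linear_combination e12 - e21
  have ab : z4 * x3 - z3 * x4 = 0 := by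
    apply mul_left_cancel₀ s02
    linear_combination f0 - f1
  have ef : (z1 * x3 + z4 * x2) - (z1 * x4 + z3 * x2) = 0 := by
    linear_combination f0 - (t0 + t1) * ab
  obtain ⟨k, hk⟩ : ∃ k, k = z3 / x3 := ⟨_, rfl⟩
  have hz3 : z3 = k * x3 := by rw [hk]; field_simp
  have hz4 : z4 = k * x4 := by
    have : z4 * x3 = k * x4 * x3 := by rw [hz3] at ab; linear_combination ab
    exact mul_right_cancel₀ hx3 this
  obtain ⟨m, hm⟩ : ∃ m, m = z4 * x3 * β + (z4 * x4 + z3 * x3) := ⟨_, rfl⟩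
  obtain ⟨n, hn⟩ : ∃ n, n = z4 * x3 * γ + (z1 * x3 + z4 * x2) := ⟨_, rfl⟩
  obtain ⟨r, hr⟩ : ∃ r, r = z4 * x3 * ρ + (z1 * x2 - 1) := ⟨_, rfl⟩
  have q01 : m * t0 * t1 + n * (t0 + t1) + r = 0 := by
    rw [hm, hn, hr]
    linear_combination e01 - z4 * x3 * P01 + t1 ^ 2 * ab + t1 * ef
  have q12 : m * t1 * t2 + n * (t1 + t2) + r = 0 := by
    rw [hm, hn, hr]
    linear_combination e12 - z4 * x3 * P12 + t2 ^ 2 * ab + t2 * ef
  have n1 : m * t1 + n = 0 := by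
    apply mul_left_cancel₀ s02
    linear_combination q01 - q12
  have hm0 : m = 0 := by
    rcases hor with ⟨t3, h13, e23, P23⟩ | h
    · have q23 : m * t2 * t3 + n * (t2 + t3) + r = 0 := by
        rw [hm, hn, hr]
        linear_combination e23 - z4 * x3 * P23 + t3 ^ 2 * ab + t3 * ef
      have s13 : t1 - t3 ≠ 0 := sub_ne_zero.mpr h13
      have n2 : m * t2 + n = 0 := by
        apply mul_left_cancel₀ s13
        linear_combination q12 - q23
      apply mul_left_cancel₀ s12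
      linear_combination n1 - n2
    · rw [hm, hz3, hz4]
      linear_combination k * h
  have hn0 : n = 0 := by linear_combination n1 - t1 * hm0
  have hr0 : r = 0 := by linear_combination q01 - t0 * t1 * hm0 - (t0 + t1) * hn0
  have hk0 : k ≠ 0 := by
    intro h0
    rw [h0, zero_mul] at hz3 hz4
    rw [hz4] at hn hr
    rw [hn0] at hn
    rw [hr0] at hr
    have hz1 : z1 = 0 := by
      have : z1 * x3 = 0 := by linear_combination -hn
      rcases mul_eq_zero.mp this with h | h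
      · exact h
      · exact absurd h hx3
    rw [hz1] at hr
    have : (1 : K) = 0 := by linear_combination hr
    exact one_ne_zero this
  refine ⟨k, hk0, hz3, hz4, ?_, ?_⟩
  · apply mul_left_cancel₀ hk0
    rw [hm0, hz3, hz4] at hm
    linear_combination -hm
  · intro x y
    rw [hm0] at hm
    rw [hn0] at hn
    rw [hr0] at hr
    have key : (z1 + z4 * x + z3 * y) * (x2 + x3 * x + x4 * y) - 1 =
        z4 * x3 * (x ^ 2 - β * x * y + y ^ 2 - γ * (x + y) - ρ) := by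
      linear_combination (-x * y) * hm - (x + y) * hn - hr - y ^ 2 * ab - y * ef
    rw [key, hz4]
    ring

end Pool.Agent.Lib.P38fcf4
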