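import Mathlib
import Pool.Agent.Lib.P38fcf4.Defs
import Pool.Agent.Lib.P38fcf4.Alg
import Pool.Agent.Lib.P38fcf4.Nec

set_option autoImplicit false

namespace Pool.Agent.Lib.P38fcf4

open Matrix

variable {K : Type*} [Field K] {n : ℕ}

theorem elt_apply_ne {θ : Fin n → K} {M : Matrix (Fin n) (Fin n) K} {x0 x1 x2 x3 x4 : K}
    {i j : Fin n} (h : i ≠ j) :
    (elt x0 x1 x2 x3 x4 (diagonal θ) M) i j = (x2 + x3 * θ i + x4 * θ j) * M i j := by
  unfold elt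
  simp only [Matrix.add_apply, Matrix.smul_apply, Matrix.diagonal_mul, Matrix.mul_diagonal,
    Matrix.one_apply_ne h, Matrix.diagonal_apply_ne _ h, smul_eq_mul]
  ring

theorem elt_apply_eq {θ : Fin n → K} {M : Matrix (Fin n) (Fin n) K} {x0 x1 x2 x3 x4 : K}
    (i : Fin n) :
    (elt x0 x1 x2 x3 x4 (diagonal θ) M) i i
      = x0 + x1 * θ i + (x2 + (x3 + x4) * θ i) * M i i := by
  unfold elt
  simp only [Matrix.add_apply, Matrix.smul_apply, Matrix.diagonal_mul, Matrix.mul_diagonal,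
    Matrix.one_apply_eq, Matrix.diagonal_apply_eq, smul_eq_mul]
  ring

theorem iii_apply_ne {θ : Fin n → K} {M E : Matrix (Fin n) (Fin n) K} {z0 z1 z2 z3 z4 : K}
    (h3 : M = z0 • 1 + z1 • E + z2 • diagonal θ + z3 • (E * diagonal θ) + z4 • (diagonal θ * E))
    {i j : Fin n} (h : i ≠ j) :
    M i j = (z1 + z4 * θ i + z3 * θ j) * E i j := by
  have := congrFun (congrFun h3 i) j
  simp only [Matrix.add_apply, Matrix.smul_apply, Matrix.diagonal_mul, Matrix.mul_diagonal,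
    Matrix.one_apply_ne h, Matrix.diagonal_apply_ne _ h, smul_eq_mul] at this
  rw [this]
  ring

theorem iii_apply_eq {θ : Fin n → K} {M E : Matrix (Fin n) (Fin n) K} {z0 z1 z2 z3 z4 : K}
    (h3 : M = z0 • 1 + z1 • E + z2 • diagonal θ + z3 • (E * diagonal θ) + z4 • (diagonal θ * E))
    (i : Fin n) :
    M i i = z0 + z2 * θ i + (z1 + (z3 + z4) * θ i) * E i i := by
  have := congrFun (congrFun h3 i) i
  simp only [Matrix.add_apply, Matrix.smul_apply, Matrix.diagonal_mul, Matrix.mul_diagonal,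
    Matrix.one_apply_eq, Matrix.diagonal_apply_eq, smul_eq_mul] at this
  linear_combination this

theorem aw_apply_ne {θ : Fin n → K} {M : Matrix (Fin n) (Fin n) K} {β γ γ' ρ ω η : K}
    (h : diagonal θ ^ 2 * M - β • (diagonal θ * M * diagonal θ) + M * diagonal θ ^ 2
      - γ • (diagonal θ * M + M * diagonal θ) - ρ • M = γ' • diagonal θ ^ 2 + ω • diagonal θ
        + η • 1) {i j : Fin n} (hij : i ≠ j) :
    (θ i ^ 2 - β * θ i * θ j + θ j ^ 2 - γ * (θ i + θ j) - ρ) * M i j = 0 := by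
  have := congrFun (congrFun h i) j
  simp only [pow_two, Matrix.mul_assoc, Matrix.diagonal_mul_diagonal, Matrix.add_apply,
    Matrix.sub_apply, Matrix.smul_apply, Matrix.diagonal_mul, Matrix.mul_diagonal,
    Matrix.one_apply_ne hij, Matrix.diagonal_apply_ne _ hij, smul_eq_mul] at this
  linear_combination this

theorem aw_apply_eq {θ : Fin n → K} {M : Matrix (Fin n) (Fin n) K} {β γ γ' ρ ω η : K}
    (h : diagonal θ ^ 2 * M - β • (diagonal θ * M * diagonal θ) + M * diagonal θ ^ 2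
      - γ • (diagonal θ * M + M * diagonal θ) - ρ • M = γ' • diagonal θ ^ 2 + ω • diagonal θ
        + η • 1) (i : Fin n) :
    (θ i ^ 2 - β * θ i * θ i + θ i ^ 2 - γ * (θ i + θ i) - ρ) * M i i
      = γ' * θ i ^ 2 + ω * θ i + η := by
  have := congrFun (congrFun h i) i
  simp only [pow_two, Matrix.mul_assoc, Matrix.diagonal_mul_diagonal, Matrix.add_apply,
    Matrix.sub_apply, Matrix.smul_apply, Matrix.diagonal_mul, Matrix.mul_diagonal,
    Matrix.one_apply_eq, Matrix.diagonal_apply_eq, smul_eq_mul] at this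
  linear_combination this

theorem aw_adj {θ : Fin n → K} {M : Matrix (Fin n) (Fin n) K} (hM : IrredTridiagonal M)
    {β γ γ' ρ ω η : K}
    (h : diagonal θ ^ 2 * M - β • (diagonal θ * M * diagonal θ) + M * diagonal θ ^ 2
      - γ • (diagonal θ * M + M * diagonal θ) - ρ • M = γ' • diagonal θ ^ 2 + ω • diagonal θ
        + η • 1) {i j : Fin n} (hij : (i : ℕ) + 1 = j) :
    θ i ^ 2 - β * θ i * θ j + θ j ^ 2 - γ * (θ i + θ j) - ρ = 0 := by
  have hne : i ≠ j := by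
    rintro rfl
    omega
  rcases mul_eq_zero.mp (aw_apply_ne h hne) with h' | h'
  · exact h'
  · exact absurd h' (hM.2 i j (Or.inl hij))

theorem adj_eq {θ : Fin n → K} {M : Matrix (Fin n) (Fin n) K} (hM : IrredTridiagonal M)
    {x0 x1 x2 x3 x4 z0 z1 z2 z3 z4 : K}
    (h3 : M = z0 • 1 + z1 • elt x0 x1 x2 x3 x4 (diagonal θ) M + z2 • diagonal θ
      + z3 • (elt x0 x1 x2 x3 x4 (diagonal θ) M * diagonal θ)
      + z4 • (diagonal θ * elt x0 x1 x2 x3 x4 (diagonal θ) M))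
    {i j : Fin n} (hij : (i : ℕ) + 1 = j ∨ (j : ℕ) + 1 = i) :
    (z1 + z4 * θ i + z3 * θ j) * (x2 + x3 * θ i + x4 * θ j) = 1 := by
  have hne : i ≠ j := by
    rintro rfl
    omega
  have h1 := iii_apply_ne h3 hne
  rw [elt_apply_ne hne] at h1
  apply mul_right_cancel₀ (hM.2 i j hij)
  linear_combination -h1

theorem one_sided0 {θ : Fin n → K} (hn : 3 ≤ n) (hθ : Function.Injective θ)
    {M : Matrix (Fin n) (Fin n) K} (hM : IrredTridiagonal M)
    {x0 x1 x2 x3 x4 z0 z1 z2 z3 z4 : K}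
    (h3 : M = z0 • 1 + z1 • elt x0 x1 x2 x3 x4 (diagonal θ) M + z2 • diagonal θ
      + z3 • (elt x0 x1 x2 x3 x4 (diagonal θ) M * diagonal θ)
      + z4 • (diagonal θ * elt x0 x1 x2 x3 x4 (diagonal θ) M)) :
    (x3 = 0 ∧ x4 = 0 ∧ x2 ≠ 0) ∨ (x3 ≠ 0 ∧ x4 ≠ 0) := by
  obtain ⟨i0, hi0⟩ : ∃ i : Fin n, (i : ℕ) = 0 := ⟨⟨0, by omega⟩, rfl⟩
  obtain ⟨i1, hi1⟩ : ∃ i : Fin n, (i : ℕ) = 1 := ⟨⟨1, by omega⟩, rfl⟩
  obtain ⟨i2, hi2⟩ : ∃ i : Fin n, (i : ℕ) = 2 := ⟨⟨2, by omega⟩, rfl⟩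
  have n01 : θ i0 ≠ θ i1 := fun h => by have := congrArg Fin.val (hθ h); omega
  have n02 : θ i0 ≠ θ i2 := fun h => by have := congrArg Fin.val (hθ h); omega
  have n12 : θ i1 ≠ θ i2 := fun h => by have := congrArg Fin.val (hθ h); omega
  exact core0 n01 n02 n12 (adj_eq hM h3 (Or.inl (by omega))) (adj_eq hM h3 (Or.inr (by omega)))
    (adj_eq hM h3 (Or.inl (by omega))) (adj_eq hM h3 (Or.inr (by omega)))

theorem one_sided {θ : Fin n → K} (hn : 3 ≤ n) (hθ : Function.Injective θ)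
    {M : Matrix (Fin n) (Fin n) K} (hM : IrredTridiagonal M)
    {x0 x1 x2 x3 x4 z0 z1 z2 z3 z4 β γ γ' ρ ω η : K}
    (h : diagonal θ ^ 2 * M - β • (diagonal θ * M * diagonal θ) + M * diagonal θ ^ 2
      - γ • (diagonal θ * M + M * diagonal θ) - ρ • M = γ' • diagonal θ ^ 2 + ω • diagonal θ
        + η • 1)
    (h3 : M = z0 • 1 + z1 • elt x0 x1 x2 x3 x4 (diagonal θ) M + z2 • diagonal θ
      + z3 • (elt x0 x1 x2 x3 x4 (diagonal θ) M * diagonal θ)
      + z4 • (diagonal θ * elt x0 x1 x2 x3 x4 (diagonal θ) M))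
    (hx3 : x3 ≠ 0) (hx4 : x4 ≠ 0) (hor : 4 ≤ n ∨ x3 ^ 2 + x4 ^ 2 + β * x3 * x4 = 0) :
    x3 ^ 2 + x4 ^ 2 + β * x3 * x4 = 0 ∧ x1 * (x3 + x4) + γ' * x3 * x4 = 0 ∧
      ∃ s t, s ^ 2 - β * s * t + t ^ 2 - γ * (s + t) - ρ = 0 ∧
        (x2 + x3 * s + x4 * t) * (x2 + x3 * t + x4 * s) ≠ 0 := by
  obtain ⟨i0, hi0⟩ : ∃ i : Fin n, (i : ℕ) = 0 := ⟨⟨0, by omega⟩, rfl⟩
  obtain ⟨i1, hi1⟩ : ∃ i : Fin n, (i : ℕ) = 1 := ⟨⟨1, by omega⟩, rfl⟩
  obtain ⟨i2, hi2⟩ : ∃ i : Fin n, (i : ℕ) = 2 := ⟨⟨2, by omega⟩, rfl⟩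
  have n01 : θ i0 ≠ θ i1 := fun h => by have := congrArg Fin.val (hθ h); omega
  have n02 : θ i0 ≠ θ i2 := fun h => by have := congrArg Fin.val (hθ h); omega
  have n12 : θ i1 ≠ θ i2 := fun h => by have := congrArg Fin.val (hθ h); omega
  have e01 := adj_eq hM h3 (i := i0) (j := i1) (Or.inl (by omega))
  have e10 := adj_eq hM h3 (i := i1) (j := i0) (Or.inr (by omega))
  have e12 := adj_eq hM h3 (i := i1) (j := i2) (Or.inl (by omega))
  have e21 := adj_eq hM h3 (i := i2) (j := i1) (Or.inr (by omega))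
  have P01 := aw_adj hM h (i := i0) (j := i1) (by omega)
  have P12 := aw_adj hM h (i := i1) (j := i2) (by omega)
  obtain ⟨k, hk0, hz3, hz4, hq, hpoly⟩ := core1 n01 n02 n12 hx3 hx4 e01 e10 e12 e21 P01 P12 (by
    rcases hor with hor | hor
    · left
      obtain ⟨i3, hi3⟩ : ∃ i : Fin n, (i : ℕ) = 3 := ⟨⟨3, by omega⟩, rfl⟩
      refine ⟨θ i3, fun h => ?_, adj_eq hM h3 (Or.inl (by omega)), aw_adj hM h (by omega)⟩
      have := congrArg Fin.val (hθ h)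
      omega
    · right
      exact hor)
  refine ⟨hq, ?_, θ i0, θ i1, P01, ?_⟩
  · -- diagonal entries
    have hd : ∀ i : Fin n, ((z3 + z4) * x1 + k * x3 * x4 * γ') * θ i ^ 2
        + (z2 + z1 * x1 + (z3 + z4) * x0 + k * x3 * x4 * ω) * θ i
        + (z0 + z1 * x0 + k * x3 * x4 * η) = 0 := by
      intro i
      have h1 := iii_apply_eq h3 i
      rw [elt_apply_eq] at h1
      have h2 := aw_apply_eq h i
      have h4 := hpoly (θ i) (θ i)
      linear_combination -h1 + (-k * x3 * x4) * h2 - M i i * h4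
    obtain ⟨g2, -, -⟩ := quad_zero n01 n02 n12 (hd i0) (hd i1) (hd i2)
    rw [hz3, hz4] at g2
    apply mul_left_cancel₀ hk0
    linear_combination g2
  · apply mul_ne_zero
    · intro h0
      rw [h0, mul_zero] at e01
      exact zero_ne_one e01
    · intro h0
      rw [h0, mul_zero] at e10
      exact zero_ne_one e10

/-- uniqueness of the quadratic from three consecutive pairs -/
theorem conic_unique {t0 t1 t2 t3 β γ ρ β' γ' ρ' : K} (h02 : t0 ≠ t2) (h12 : t1 ≠ t2)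
    (h13 : t1 ≠ t3)
    (P01 : t0 ^ 2 - β * t0 * t1 + t1 ^ 2 - γ * (t0 + t1) - ρ = 0)
    (P12 : t1 ^ 2 - β * t1 * t2 + t2 ^ 2 - γ * (t1 + t2) - ρ = 0)
    (P23 : t2 ^ 2 - β * t2 * t3 + t3 ^ 2 - γ * (t2 + t3) - ρ = 0)
    (Q01 : t0 ^ 2 - β' * t0 * t1 + t1 ^ 2 - γ' * (t0 + t1) - ρ' = 0)
    (Q12 : t1 ^ 2 - β' * t1 * t2 + t2 ^ 2 - γ' * (t1 + t2) - ρ' = 0)
    (Q23 : t2 ^ 2 - β' * t2 * t3 + t3 ^ 2 - γ' * (t2 + t3) - ρ' = 0) :
    β' = β ∧ γ' = γ ∧ ρ' = ρ := by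
  have s02 : t0 - t2 ≠ 0 := sub_ne_zero.mpr h02
  have s12 : t1 - t2 ≠ 0 := sub_ne_zero.mpr h12
  have s13 : t1 - t3 ≠ 0 := sub_ne_zero.mpr h13
  have f1 : (β' - β) * t1 + (γ' - γ) = 0 := by
    apply mul_left_cancel₀ s02
    linear_combination P01 - P12 - Q01 + Q12
  have f2 : (β' - β) * t2 + (γ' - γ) = 0 := by
    apply mul_left_cancel₀ s13
    linear_combination P12 - P23 - Q12 + Q23
  have g1 : β' - β = 0 := by
    apply mul_left_cancel₀ s12
    linear_combination f1 - f2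
  have g2 : γ' - γ = 0 := by linear_combination f1 - t1 * g1
  refine ⟨by linear_combination g1, by linear_combination g2, ?_⟩
  linear_combination P01 - Q01 - t0 * t1 * g1 - (t0 + t1) * g2

end Pool.Agent.Lib.P38fcf4
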