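import Mathlib
import Pool.Agent.Lib.P38fcf4.Mat

set_option autoImplicit false

namespace Pool.Agent.Lib.P38fcf4

open Matrix

variable {K : Type*} [Field K] {n : ℕ}

theorem caseC {θ : Fin n → K} (hn : 4 ≤ n) (hθ : Function.Injective θ)
    {M : Matrix (Fin n) (Fin n) K} (hM : IrredTridiagonal M)
    {x0 x1 x2 β γ γ' ρ ρ' ω η η' βE γE γE' ρE ρE' ωE ηE ηE' : K}
    (h : AWRelations (diagonal θ) M β γ γ' ρ ρ' ω η η')
    (hE : AWRelations (diagonal θ) (elt x0 x1 x2 0 0 (diagonal θ) M) βE γE γE' ρE ρE' ωE ηE ηE')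
    (hx1 : x1 ≠ 0) (hx2 : x2 ≠ 0) : β = 2 ∧ x1 * γ = x2 * γ' := by
  obtain ⟨i0, hi0⟩ : ∃ i : Fin n, (i : ℕ) = 0 := ⟨⟨0, by omega⟩, rfl⟩
  obtain ⟨i1, hi1⟩ : ∃ i : Fin n, (i : ℕ) = 1 := ⟨⟨1, by omega⟩, rfl⟩
  obtain ⟨i2, hi2⟩ : ∃ i : Fin n, (i : ℕ) = 2 := ⟨⟨2, by omega⟩, rfl⟩
  obtain ⟨i3, hi3⟩ : ∃ i : Fin n, (i : ℕ) = 3 := ⟨⟨3, by omega⟩, rfl⟩
  have n01 : θ i0 ≠ θ i1 := fun h => by have := congrArg Fin.val (hθ h); omega
  have n02 : θ i0 ≠ θ i2 := fun h => by have := congrArg Fin.val (hθ h); omega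
  have n03 : θ i0 ≠ θ i3 := fun h => by have := congrArg Fin.val (hθ h); omega
  have n12 : θ i1 ≠ θ i2 := fun h => by have := congrArg Fin.val (hθ h); omega
  have n13 : θ i1 ≠ θ i3 := fun h => by have := congrArg Fin.val (hθ h); omega
  have n23 : θ i2 ≠ θ i3 := fun h => by have := congrArg Fin.val (hθ h); omega
  have P01 := aw_adj hM h.1 (i := i0) (j := i1) (by omega)
  have P12 := aw_adj hM h.1 (i := i1) (j := i2) (by omega)
  have P23 := aw_adj hM h.1 (i := i2) (j := i3) (by omega)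
  have Q : ∀ i j : Fin n, (i : ℕ) + 1 = j →
      θ i ^ 2 - βE * θ i * θ j + θ j ^ 2 - γE * (θ i + θ j) - ρE = 0 := by
    intro i j hij
    have hne : i ≠ j := by
      rintro rfl
      omega
    have h1 := aw_apply_ne hE.1 hne
    rw [elt_apply_ne hne] at h1
    rcases mul_eq_zero.mp h1 with h' | h'
    · exact h'
    · rcases mul_eq_zero.mp h' with h'' | h''
      · exact absurd (by linear_combination h'') hx2
      · exact absurd h'' (hM.2 i j (Or.inl hij))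
  obtain ⟨hβ, hγ, hρ⟩ := conic_unique n02 n12 n13 P01 P12 P23 (Q i0 i1 (by omega))
    (Q i1 i2 (by omega)) (Q i2 i3 (by omega))
  subst hβ hγ hρ
  have hd : ∀ i : Fin n, (x1 * (2 - βE)) * θ i ^ 3
      + (x0 * (2 - βE) - 2 * γE * x1 + x2 * γ' - γE') * θ i ^ 2
      + (-2 * γE * x0 - ρE * x1 + x2 * ω - ωE) * θ i + (-ρE * x0 + x2 * η - ηE) = 0 := by
    intro i
    have h1 := aw_apply_eq h.1 i
    have h2 := aw_apply_eq hE.1 i
    rw [elt_apply_eq] at h2
    linear_combination h2 - x2 * h1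
  obtain ⟨g3, g2, g1, -⟩ := cubic_zero n01 n02 n03 n12 n13 n23 (hd i0) (hd i1) (hd i2) (hd i3)
  have hβ : βE = 2 := by
    rcases mul_eq_zero.mp g3 with h' | h'
    · exact absurd h' hx1
    · linear_combination -h'
  refine ⟨hβ, ?_⟩
  subst hβ
  have hk := keyC' (x0 := x0) (x1 := x1) (x2 := x2) h hE (by linear_combination -g2)
    (by linear_combination -g1)
  have hd2 : ∀ i : Fin n, (-(3 * x1 * (x2 * γ' - x1 * γE))) * θ i ^ 2
      + (-x1 * x2 * ω + x2 ^ 2 * ρ' - 2 * x0 * γE' - ρE' - 2 * γE * x0 * x1 - x1 * ωE) * θ i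
      + (-x1 * x2 * η + x2 ^ 2 * η' - γE * x0 ^ 2 - x0 * ωE - ηE') = 0 := by
    intro i
    have := congrFun (congrFun hk i) i
    simp only [pow_two, Matrix.diagonal_mul_diagonal, Matrix.add_apply,
      Matrix.smul_apply, Matrix.one_apply_eq, Matrix.diagonal_apply_eq, smul_eq_mul,
      Matrix.zero_apply] at this
    linear_combination this
  obtain ⟨k2, -, -⟩ := quad_zero n01 n02 n12 (hd2 i0) (hd2 i1) (hd2 i2)
  have s02 : θ i0 - θ i2 ≠ 0 := sub_ne_zero.mpr n02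
  have s13 : θ i1 - θ i3 ≠ 0 := sub_ne_zero.mpr n13
  have r1 : θ i0 + θ i2 - 2 * θ i1 - γE = 0 := by
    apply mul_left_cancel₀ s02
    linear_combination P01 - P12
  have r2 : θ i1 + θ i3 - 2 * θ i2 - γE = 0 := by
    apply mul_left_cancel₀ s13
    linear_combination P12 - P23
  have h30 : (3 : K) ≠ 0 := by
    intro h3
    apply n03
    linear_combination r1 - r2 + (θ i1 - θ i2) * h3
  have : 3 * x1 * (x2 * γ' - x1 * γE) = 0 := by linear_combination -k2
  rcases mul_eq_zero.mp this with h' | h'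
  · rcases mul_eq_zero.mp h' with h'' | h''
    · exact absurd h'' h30
    · exact absurd h'' hx1
  · linear_combination -h'

end Pool.Agent.Lib.P38fcf4
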