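import Mathlib
import Pool.Agent.Lib.P38fcf4.Mat

set_option autoImplicit false

namespace Pool.Agent.Lib.P38fcf4

open Module

variable {K : Type*} [Field K] {V : Type*} [AddCommGroup V] [Module K V] {n : ℕ}

theorem apply_basis_of_isDiag {b : Basis (Fin n) K V} {A : Module.End K V}
    (h : (LinearMap.toMatrix b b A).IsDiag) (i : Fin n) :
    A (b i) = LinearMap.toMatrix b b A i i • b i := by
  conv_lhs => rw [← b.sum_repr (A (b i))]
  rw [Finset.sum_eq_single i]
  · rw [LinearMap.toMatrix_apply]
  · intro j _ hj
    have := h hj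
    simp only [LinearMap.toMatrix_apply] at this
    rw [this, zero_smul]
  · intro hi
    exact absurd (Finset.mem_univ i) hi

theorem eigen_zero {b : Basis (Fin n) K V} {A : Module.End K V}
    (h : IrredTridiagonal (LinearMap.toMatrix b b A)) {v : V} {a : K} (hv : A v = a • v)
    (h0 : ∀ i : Fin n, (i : ℕ) = 0 → b.repr v i = 0) : v = 0 := by
  have key : ∀ k : ℕ, ∀ i : Fin n, (i : ℕ) ≤ k → b.repr v i = 0 := by
    intro k
    induction k with
    | zero => intro i hi; exact h0 i (by omega)
    | succ k ih =>
      intro i hi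
      rcases Nat.lt_or_ge (i : ℕ) (k + 1) with hlt | hge
      · exact ih i (by omega)
      · have hik : (i : ℕ) = k + 1 := by omega
        obtain ⟨j, hj⟩ : ∃ j : Fin n, (j : ℕ) = k := ⟨⟨k, by have := i.2; omega⟩, rfl⟩
        have e := congrFun (LinearMap.toMatrix_mulVec_repr b b A v) j
        rw [hv, map_smul, Finsupp.smul_apply, ih j (by omega), smul_zero, Matrix.mulVec,
          dotProduct, Finset.sum_eq_single i] at e
        · rcases mul_eq_zero.mp e with h' | h'
          · exact absurd h' (h.2 j i (Or.inl (by omega)))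
          · exact h'
        · intro l _ hl
          rcases Nat.lt_or_ge (l : ℕ) (k + 1) with hlt | hge
          · rw [ih l (by omega), mul_zero]
          · have : (j : ℕ) + 1 < l := by
              have : (l : ℕ) ≠ i := fun h => hl (Fin.ext h)
              omega
            rw [h.1 j l (Or.inl this), zero_mul]
        · intro hi'
          exact absurd (Finset.mem_univ i) hi'
  apply b.repr.injective
  ext i
  rw [key n i (by omega)]
  simp

theorem eigen_injective {b b' : Basis (Fin n) K V} {A : Module.End K V}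
    (h : (LinearMap.toMatrix b b A).IsDiag) (h' : IrredTridiagonal (LinearMap.toMatrix b' b' A)) :
    Function.Injective fun i => LinearMap.toMatrix b b A i i := by
  intro i j hij
  by_contra hne
  simp only at hij
  have hi := apply_basis_of_isDiag h i
  have hj := apply_basis_of_isDiag h j
  obtain ⟨z, hz⟩ : ∃ z : Fin n, (z : ℕ) = 0 := ⟨⟨0, by have := i.2; omega⟩, rfl⟩
  have hz' : ∀ l : Fin n, (l : ℕ) = 0 → l = z := fun l hl => Fin.ext (by omega)
  have h1 : b'.repr (b i) z ≠ 0 := by
    intro h0
    have : b i = 0 := eigen_zero h' hi (fun l hl => by rw [hz' l hl]; exact h0)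
    exact b.ne_zero i this
  have h2 : (b'.repr (b j) z) • b i - (b'.repr (b i) z) • b j = 0 := by
    apply eigen_zero (a := LinearMap.toMatrix b b A i i) h'
    · rw [map_sub, map_smul, map_smul, hi, hj, ← hij, smul_sub, smul_comm,
        smul_comm (LinearMap.toMatrix b b A i i) (b'.repr (b i) z)]
    · intro l hl
      rw [hz' l hl, map_sub, map_smul, map_smul, Finsupp.sub_apply, Finsupp.smul_apply,
        Finsupp.smul_apply, smul_eq_mul, smul_eq_mul, mul_comm, sub_self]
  have h3 := congrArg (fun v => b.repr v j) h2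
  simp only [map_sub, map_smul, Basis.repr_self, Finsupp.sub_apply, Finsupp.smul_apply,
    Finsupp.single_eq_same, map_zero, Finsupp.zero_apply, smul_eq_mul] at h3
  rw [Finsupp.single_eq_of_ne (Ne.symm hne)] at h3
  apply h1
  linear_combination -h3

theorem toMatrix_eq_diagonal {b : Basis (Fin n) K V} {A : Module.End K V}
    (h : (LinearMap.toMatrix b b A).IsDiag) :
    LinearMap.toMatrixAlgEquiv b A = Matrix.diagonal fun i => LinearMap.toMatrix b b A i i := by
  change LinearMap.toMatrix b b A = _
  conv_lhs => rw [← h.diagonal_diag]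
  rfl

theorem AWRelations.map {R S : Type*} [Ring R] [Algebra K R] [Ring S] [Algebra K S]
    (f : R →ₐ[K] S) {X Y : R} {β γ γ' ρ ρ' ω η η' : K}
    (h : AWRelations X Y β γ γ' ρ ρ' ω η η') :
    AWRelations (f X) (f Y) β γ γ' ρ ρ' ω η η' := by
  obtain ⟨h1, h2⟩ := h
  constructor
  · have := congrArg f h1
    simpa only [map_add, map_sub, map_mul, map_pow, map_smul, map_one] using this
  · have := congrArg f h2
    simpa only [map_add, map_sub, map_mul, map_pow, map_smul, map_one] using this

theorem elt_map {R S : Type*} [Ring R] [Algebra K R] [Ring S] [Algebra K S]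
    (f : R →ₐ[K] S) (x0 x1 x2 x3 x4 : K) (X Y : R) :
    f (elt x0 x1 x2 x3 x4 X Y) = elt x0 x1 x2 x3 x4 (f X) (f Y) := by
  simp only [elt, map_add, map_mul, map_smul, map_one]

/-- Leonard pair with the dimension as a parameter -/
def LP (n : ℕ) (A B : Module.End K V) : Prop :=
  (∃ b : Basis (Fin n) K V,
      IrredTridiagonal (LinearMap.toMatrix b b A) ∧ (LinearMap.toMatrix b b B).IsDiag) ∧
    ∃ b : Basis (Fin n) K V,
      IrredTridiagonal (LinearMap.toMatrix b b B) ∧ (LinearMap.toMatrix b b A).IsDiag

/-- data extracted from a Leonard pair, seen from `A` -/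
theorem LP.data {A B : Module.End K V} (h : LP n A B) :
    ∃ (b : Basis (Fin n) K V) (θ : Fin n → K) (M : Matrix (Fin n) (Fin n) K),
      Function.Injective θ ∧ IrredTridiagonal M ∧
      LinearMap.toMatrixAlgEquiv b A = Matrix.diagonal θ ∧ LinearMap.toMatrixAlgEquiv b B = M := by
  obtain ⟨⟨b', h1, h2⟩, ⟨b, h3, h4⟩⟩ := h
  exact ⟨b, fun i => LinearMap.toMatrix b b A i i, LinearMap.toMatrix b b B,
    eigen_injective h4 h1, h3, toMatrix_eq_diagonal h4, rfl⟩

theorem LP.symm {A B : Module.End K V} (h : LP n A B) : LP n B A := ⟨h.2, h.1⟩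

end Pool.Agent.Lib.P38fcf4
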