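import Mathlib
import Pool.Agent.Lib.P38fcf4.Eigen

set_option autoImplicit false

namespace Pool.Agent.Lib.P38fcf4

open Module Matrix

variable {K : Type*} [Field K]

/-- polarised second elementary symmetric function of the eigenvalues -/
def e2p (X Y : Matrix (Fin 3) (Fin 3) K) : K :=
  X 0 0 * Y 1 1 + Y 0 0 * X 1 1 - X 0 1 * Y 1 0 - Y 0 1 * X 1 0
    + X 0 0 * Y 2 2 + Y 0 0 * X 2 2 - X 0 2 * Y 2 0 - Y 0 2 * X 2 0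
    + X 1 1 * Y 2 2 + Y 1 1 * X 2 2 - X 1 2 * Y 2 1 - Y 1 2 * X 2 1

def e2 (X : Matrix (Fin 3) (Fin 3) K) : K :=
  X 0 0 * X 1 1 - X 0 1 * X 1 0 + X 0 0 * X 2 2 - X 0 2 * X 2 0 + X 1 1 * X 2 2 - X 1 2 * X 2 1

/-- derivative of the determinant at `X` in direction `Y` -/
def e3p (X Y : Matrix (Fin 3) (Fin 3) K) : K :=
  Y 0 0 * (X 1 1 * X 2 2 - X 1 2 * X 2 1) - Y 0 1 * (X 1 0 * X 2 2 - X 1 2 * X 2 0)
    + Y 0 2 * (X 1 0 * X 2 1 - X 1 1 * X 2 0)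
    + X 0 0 * (Y 1 1 * X 2 2 + X 1 1 * Y 2 2 - Y 1 2 * X 2 1 - X 1 2 * Y 2 1)
    - X 0 1 * (Y 1 0 * X 2 2 + X 1 0 * Y 2 2 - Y 1 2 * X 2 0 - X 1 2 * Y 2 0)
    + X 0 2 * (Y 1 0 * X 2 1 + X 1 0 * Y 2 1 - Y 1 1 * X 2 0 - X 1 1 * Y 2 0)

theorem ch3_aux (X Y : Matrix (Fin 3) (Fin 3) K) :
    X ^ 2 * Y - (-1 : K) • (X * Y * X) + Y * X ^ 2 - (X 0 0 + X 1 1 + X 2 2) • (X * Y + Y * X)
      - (-e2 X) • Y = (Y 0 0 + Y 1 1 + Y 2 2) • X ^ 2 + (-e2p X Y) • X + e3p X Y • 1 := by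
  ext i j
  fin_cases i <;> fin_cases j <;>
    simp [Matrix.mul_apply, Fin.sum_univ_three, pow_two, e2, e2p, e3p] <;> ring

theorem e2p_comm (X Y : Matrix (Fin 3) (Fin 3) K) : e2p X Y = e2p Y X := by
  unfold e2p
  ring

theorem ch3 (X Y : Matrix (Fin 3) (Fin 3) K) :
    AWRelations X Y (-1 : K) (X 0 0 + X 1 1 + X 2 2) (Y 0 0 + Y 1 1 + Y 2 2) (-e2 X) (-e2 Y)
      (-e2p X Y) (e3p X Y) (e3p Y X) := by
  refine ⟨ch3_aux X Y, ?_⟩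
  rw [e2p_comm]
  exact ch3_aux Y X

theorem ch2_aux (X Y : Matrix (Fin 2) (Fin 2) K) :
    X ^ 2 * Y - (0 : K) • (X * Y * X) + Y * X ^ 2 - (0 : K) • (X * Y + Y * X)
      - ((X 0 0 + X 1 1) ^ 2 - 2 * (X 0 0 * X 1 1 - X 0 1 * X 1 0)) • Y
      = (0 : K) • X ^ 2 + ((X 0 0 + X 1 1) * (Y 0 0 + Y 1 1)) • X
        + ((X 0 0 + X 1 1) * (X 0 0 * Y 0 0 + X 0 1 * Y 1 0 + X 1 0 * Y 0 1 + X 1 1 * Y 1 1
          - (X 0 0 + X 1 1) * (Y 0 0 + Y 1 1))) • 1 := by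
  ext i j
  fin_cases i <;> fin_cases j <;>
    simp [Matrix.mul_apply, Fin.sum_univ_two, pow_two] <;> ring

theorem ch2 (X Y : Matrix (Fin 2) (Fin 2) K) :
    AWRelations X Y (0 : K) 0 0 ((X 0 0 + X 1 1) ^ 2 - 2 * (X 0 0 * X 1 1 - X 0 1 * X 1 0))
      ((Y 0 0 + Y 1 1) ^ 2 - 2 * (Y 0 0 * Y 1 1 - Y 0 1 * Y 1 0))
      ((X 0 0 + X 1 1) * (Y 0 0 + Y 1 1))
      ((X 0 0 + X 1 1) * (X 0 0 * Y 0 0 + X 0 1 * Y 1 0 + X 1 0 * Y 0 1 + X 1 1 * Y 1 1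
          - (X 0 0 + X 1 1) * (Y 0 0 + Y 1 1)))
      ((Y 0 0 + Y 1 1) * (Y 0 0 * X 0 0 + Y 0 1 * X 1 0 + Y 1 0 * X 0 1 + Y 1 1 * X 1 1
          - (Y 0 0 + Y 1 1) * (X 0 0 + X 1 1))) := by
  refine ⟨ch2_aux X Y, ?_⟩
  rw [mul_comm (X 0 0 + X 1 1) (Y 0 0 + Y 1 1)]
  exact ch2_aux Y X

variable {V : Type*} [AddCommGroup V] [Module K V]

theorem satisfyAW_of_matrix {n : ℕ} (b : Basis (Fin n) K V) {X Y : Module.End K V}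
    {β γ γ' ρ ρ' ω η η' : K}
    (h : AWRelations (LinearMap.toMatrixAlgEquiv b X) (LinearMap.toMatrixAlgEquiv b Y)
      β γ γ' ρ ρ' ω η η') : AWRelations X Y β γ γ' ρ ρ' ω η η' := by
  have := h.map (LinearMap.toMatrixAlgEquiv b).symm.toAlgHom
  simpa using this

theorem satisfyAW_three (b : Basis (Fin 3) K V) (X Y : Module.End K V) : SatisfyAW X Y :=
  ⟨_, _, _, _, _, _, _, _, satisfyAW_of_matrix b (ch3 _ _)⟩

theorem satisfyAW_two (b : Basis (Fin 2) K V) (X Y : Module.End K V) : SatisfyAW X Y :=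
  ⟨_, _, _, _, _, _, _, _, satisfyAW_of_matrix b (ch2 _ _)⟩

theorem satisfyAW_one (b : Basis (Fin 1) K V) (X Y : Module.End K V) : SatisfyAW X Y := by
  obtain ⟨x, hx⟩ : ∃ x, x = LinearMap.toMatrixAlgEquiv b X 0 0 := ⟨_, rfl⟩
  obtain ⟨y, hy⟩ : ∃ y, y = LinearMap.toMatrixAlgEquiv b Y 0 0 := ⟨_, rfl⟩
  refine ⟨0, 0, 0, 0, 0, 0, 2 * x ^ 2 * y, 2 * y ^ 2 * x, satisfyAW_of_matrix b ⟨?_, ?_⟩⟩
  · ext i j
    rw [Subsingleton.elim i 0, Subsingleton.elim j 0]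
    simp [Matrix.mul_apply, pow_two, ← hx, ← hy]
    ring
  · ext i j
    rw [Subsingleton.elim i 0, Subsingleton.elim j 0]
    simp [Matrix.mul_apply, pow_two, ← hx, ← hy]
    ring

theorem eq_smul_one_of_one (b : Basis (Fin 1) K V) (X : Module.End K V) : ∃ c : K, X = c • 1 := by
  refine ⟨LinearMap.toMatrixAlgEquiv b X 0 0, ?_⟩
  apply (LinearMap.toMatrixAlgEquiv b).injective
  ext i j
  rw [Subsingleton.elim i 0, Subsingleton.elim j 0, map_smul, map_one]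
  simp

theorem compatible_one (b : Basis (Fin 1) K V) (A B E : Module.End K V) : Compatible A B E := by
  refine ⟨?_, ?_, ?_, satisfyAW_one b _ _, satisfyAW_one b _ _, satisfyAW_one b _ _⟩
  · obtain ⟨c, rfl⟩ := eq_smul_one_of_one b E
    exact Submodule.smul_mem _ _ (Submodule.subset_span (by simp))
  · obtain ⟨c, rfl⟩ := eq_smul_one_of_one b A
    exact Submodule.smul_mem _ _ (Submodule.subset_span (by simp))
  · obtain ⟨c, rfl⟩ := eq_smul_one_of_one b B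
    exact Submodule.smul_mem _ _ (Submodule.subset_span (by simp))

/-- two-dimensional case: the span is everything -/
theorem span_two {θ : Fin 2 → K} (hθ : θ 0 ≠ θ 1) {E : Matrix (Fin 2) (Fin 2) K}
    (h01 : E 0 1 ≠ 0) (h10 : E 1 0 ≠ 0) (Z : Matrix (Fin 2) (Fin 2) K) :
    ∃ z0 z1 z2 z3 : K, Z = z0 • 1 + z1 • E + z2 • diagonal θ + z3 • (E * diagonal θ) := by
  have hθ' : θ 1 - θ 0 ≠ 0 := sub_ne_zero.mpr (Ne.symm hθ)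
  obtain ⟨z3, hz3⟩ : ∃ z3, z3 * (θ 1 - θ 0) = Z 0 1 / E 0 1 - Z 1 0 / E 1 0 :=
    ⟨(Z 0 1 / E 0 1 - Z 1 0 / E 1 0) / (θ 1 - θ 0), div_mul_cancel₀ _ hθ'⟩
  obtain ⟨z1, hz1⟩ : ∃ z1, z1 = Z 0 1 / E 0 1 - z3 * θ 1 := ⟨_, rfl⟩
  obtain ⟨u, hu⟩ : ∃ u, u = Z 0 0 - (z1 + z3 * θ 0) * E 0 0 := ⟨_, rfl⟩
  obtain ⟨v, hv⟩ : ∃ v, v = Z 1 1 - (z1 + z3 * θ 1) * E 1 1 := ⟨_, rfl⟩
  obtain ⟨z2, hz2⟩ : ∃ z2, z2 * (θ 1 - θ 0) = v - u := ⟨(v - u) / (θ 1 - θ 0),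
    div_mul_cancel₀ _ hθ'⟩
  have f01 : Z 0 1 = Z 0 1 / E 0 1 * E 0 1 := by field_simp
  have f10 : Z 1 0 = Z 1 0 / E 1 0 * E 1 0 := by field_simp
  refine ⟨u - z2 * θ 0, z1, z2, z3, ?_⟩
  ext i j
  fin_cases i <;> fin_cases j
  · simp
    rw [hu]
    ring
  · simp
    rw [hz1]
    linear_combination f01
  · simp
    rw [hz1]
    linear_combination f10 + E 1 0 * hz3
  · simp
    linear_combination -hz2 - hv

end Pool.Agent.Lib.P38fcf4
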