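import Mathlib
import Pool.Agent.Lib.P38fcf4.Low

set_option autoImplicit false

namespace Pool.Agent.Lib.P38fcf4

open Module Matrix

variable {K : Type*} [Field K]

section shift

variable {R : Type*} [Ring R] [Algebra K R]

/-- shifting the first variable -/
theorem AWRelations.shift {X Y : R} {β γ γ' ρ ρ' ω η η' : K} (s : K)
    (h : AWRelations X Y β γ γ' ρ ρ' ω η η') :
    AWRelations (X + s • (1 : R)) Y β (γ + (2 - β) * s) γ'
      (ρ - (2 - β) * s ^ 2 - 2 * s * γ) ρ' (ω - 2 * s * γ')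
      (η - γ' * s ^ 2 - (ω - 2 * s * γ') * s) (η' - ρ' * s) := by
  obtain ⟨h1, h2⟩ := h
  rw [← sub_eq_zero] at h1 h2
  constructor
  · rw [← sub_eq_zero, ← h1]
    simp only [pow_succ, pow_zero, mul_add, add_mul, smul_mul_assoc,
      mul_smul_comm, one_mul, mul_one, mul_assoc]
    module
  · rw [← sub_eq_zero, ← h2]
    simp only [pow_succ, pow_zero, mul_add, add_mul, smul_mul_assoc,
      mul_smul_comm, one_mul, mul_one, mul_assoc]
    module

end shift

variable {V : Type*} [AddCommGroup V] [Module K V]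

/-- In dimension three, an endomorphism `B` which is tridiagonal in an eigenbasis of `A`
satisfies `A₁ B A₁ ∈ Span (A₁, A₁²)`, where `A₁` is `A` minus its middle eigenvalue. -/
theorem sandwich_mat {θ : Fin 3 → K} (hθ : Function.Injective θ)
    {M : Matrix (Fin 3) (Fin 3) K} (hM : IrredTridiagonal M) :
    ∃ α δ : K, (diagonal θ - θ 1 • 1) * M * (diagonal θ - θ 1 • 1)
      = α • (diagonal θ - θ 1 • 1) + δ • (diagonal θ - θ 1 • 1) ^ 2 := by
  have h02 : M 0 2 = 0 := hM.1 0 2 (Or.inl (by norm_num))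
  have h20 : M 2 0 = 0 := hM.1 2 0 (Or.inr (by norm_num))
  have hp : θ 0 - θ 1 ≠ 0 := sub_ne_zero.mpr (fun h => absurd (hθ h) (by decide))
  have hr : θ 2 - θ 1 ≠ 0 := sub_ne_zero.mpr (fun h => absurd (hθ h) (by decide))
  have hpr : θ 0 - θ 2 ≠ 0 := sub_ne_zero.mpr (fun h => absurd (hθ h) (by decide))
  obtain ⟨δ, hδ⟩ : ∃ δ, δ * (θ 0 - θ 2) = (θ 0 - θ 1) * M 0 0 - (θ 2 - θ 1) * M 2 2 :=
    ⟨((θ 0 - θ 1) * M 0 0 - (θ 2 - θ 1) * M 2 2) / (θ 0 - θ 2), div_mul_cancel₀ _ hpr⟩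
  obtain ⟨α, hα⟩ : ∃ α, α = (θ 0 - θ 1) * M 0 0 - δ * (θ 0 - θ 1) := ⟨_, rfl⟩
  refine ⟨α, δ, ?_⟩
  have hd : (diagonal θ - θ 1 • 1 : Matrix (Fin 3) (Fin 3) K)
      = diagonal fun i => θ i - θ 1 := by
    ext i j
    by_cases h : i = j
    · subst h; simp
    · simp [h]
  rw [hd, pow_two, Matrix.diagonal_mul_diagonal]
  ext i j
  rw [Matrix.mul_diagonal, Matrix.diagonal_mul]
  fin_cases i <;> fin_cases j
  · simp
    rw [hα]; ring
  · simp
  · simp [h02]
  · simp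
  · simp
  · simp
  · simp [h20]
  · simp
  · simp
    rw [hα]
    linear_combination (θ 2 - θ 1) * hδ

/-- The sandwich relations for a Leonard pair on a three-dimensional space. -/
theorem LP.sandwich {A B : Module.End K V} (h : LP 3 A B) :
    ∃ s s' e : K,
      (A - s • 1) * (B - s' • 1) * (A - s • 1) = e • (A - s • 1) ∧
      (B - s' • 1) * (A - s • 1) * (B - s' • 1) = e • (B - s' • 1) := by
  obtain ⟨b, θ, M, hθ, hM, hA, hB⟩ := h.data
  obtain ⟨b', θ', M', hθ', hM', hB', hA'⟩ := h.symm.data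
  obtain ⟨α, δ, h1⟩ := sandwich_mat hθ hM
  obtain ⟨α', δ', h2⟩ := sandwich_mat hθ' hM'
  -- transfer to operators
  have t1 : (A - θ 1 • 1) * B * (A - θ 1 • 1) = α • (A - θ 1 • 1) + δ • (A - θ 1 • 1) ^ 2 := by
    apply (LinearMap.toMatrixAlgEquiv b).injective
    simp only [map_mul, map_sub, map_add, map_smul, map_one, map_pow, hA, hB]
    exact h1
  have t2 : (B - θ' 1 • 1) * A * (B - θ' 1 • 1)
      = α' • (B - θ' 1 • 1) + δ' • (B - θ' 1 • 1) ^ 2 := by
    apply (LinearMap.toMatrixAlgEquiv b').injective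
    simp only [map_mul, map_sub, map_add, map_smul, map_one, map_pow, hA', hB']
    exact h2
  obtain ⟨s, hs⟩ : ∃ s, s = θ 1 := ⟨_, rfl⟩
  obtain ⟨s', hs'⟩ : ∃ s', s' = θ' 1 := ⟨_, rfl⟩
  rw [← hs] at t1
  rw [← hs'] at t2
  obtain ⟨X, hX⟩ : ∃ X, X = A - s • 1 := ⟨_, rfl⟩
  obtain ⟨Y, hY⟩ : ∃ Y, Y = B - s' • 1 := ⟨_, rfl⟩
  have u1 : X * Y * X = α • X + (δ - s') • X ^ 2 := by
    have hB1 : B = Y + s' • 1 := by rw [hY]; abel
    rw [← hX, hB1] at t1
    have : X * Y * X = X * (Y + s' • 1) * X - s' • X ^ 2 := by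
      simp only [mul_add, add_mul, mul_smul_comm, smul_mul_assoc, mul_one, pow_two]
      module
    rw [this, t1]
    module
  have u2 : Y * X * Y = α' • Y + (δ' - s) • Y ^ 2 := by
    have hA1 : A = X + s • 1 := by rw [hX]; abel
    rw [← hY, hA1] at t2
    have : Y * X * Y = Y * (X + s • 1) * Y - s • Y ^ 2 := by
      simp only [mul_add, add_mul, mul_smul_comm, smul_mul_assoc, mul_one, pow_two]
      module
    rw [this, t2]
    module
  obtain ⟨d, hd⟩ : ∃ d, d = δ - s' := ⟨_, rfl⟩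
  obtain ⟨d', hd'⟩ : ∃ d', d' = δ' - s := ⟨_, rfl⟩
  rw [← hd] at u1
  rw [← hd'] at u2
  -- Y X Y X computed in two ways
  have u3 : α • (Y * X) + d • (Y * X ^ 2) = α' • (Y * X) + d' • (Y ^ 2 * X) := by
    have e1 : Y * (X * Y * X) = α • (Y * X) + d • (Y * X ^ 2) := by
      rw [u1, mul_add, mul_smul_comm, mul_smul_comm]
    have e2 : Y * X * Y * X = α' • (Y * X) + d' • (Y ^ 2 * X) := by
      rw [u2, add_mul, smul_mul_assoc, smul_mul_assoc]
    rw [← e1, ← e2]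
    simp only [mul_assoc]
  -- entries in the basis b
  have hp : θ 0 - θ 1 ≠ 0 := sub_ne_zero.mpr (fun h => absurd (hθ h) (by decide))
  have hr : θ 2 - θ 1 ≠ 0 := sub_ne_zero.mpr (fun h => absurd (hθ h) (by decide))
  have hpr : θ 0 - θ 2 ≠ 0 := sub_ne_zero.mpr (fun h => absurd (hθ h) (by decide))
  have hXm : LinearMap.toMatrixAlgEquiv b X = diagonal fun i => θ i - θ 1 := by
    rw [hX, map_sub, map_smul, map_one, hA, hs]
    ext i j
    by_cases h : i = j
    · subst h; simp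
    · simp [h]
  obtain ⟨N, hN⟩ : ∃ N, N = LinearMap.toMatrixAlgEquiv b Y := ⟨_, rfl⟩
  have hNe : ∀ i j, i ≠ j → N i j = M i j := by
    intro i j hij
    rw [hN, hY, map_sub, map_smul, map_one, hB]
    simp [hij]
  have n10 : N 1 0 ≠ 0 := by
    rw [hNe 1 0 (by decide)]
    exact hM.2 1 0 (Or.inr (by norm_num))
  have n12 : N 1 2 ≠ 0 := by
    rw [hNe 1 2 (by decide)]
    exact hM.2 1 2 (Or.inl (by norm_num))
  have n21 : N 2 1 ≠ 0 := by
    rw [hNe 2 1 (by decide)]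
    exact hM.2 2 1 (Or.inr (by norm_num))
  have n20 : N 2 0 = 0 := by
    rw [hNe 2 0 (by decide)]
    exact hM.1 2 0 (Or.inr (by norm_num))
  have n02 : N 0 2 = 0 := by
    rw [hNe 0 2 (by decide)]
    exact hM.1 0 2 (Or.inl (by norm_num))
  have u4 := congrArg (LinearMap.toMatrixAlgEquiv b) u3
  simp only [map_add, map_smul, map_mul, map_pow, hXm, ← hN, pow_two,
    Matrix.diagonal_mul_diagonal] at u4
  have u5 : ∀ i j, α * (N i j * (θ j - θ 1)) + d * (N i j * ((θ j - θ 1) * (θ j - θ 1)))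
      = α' * (N i j * (θ j - θ 1)) + d' * ((N * N) i j * (θ j - θ 1)) := by
    intro i j
    have := congrFun (congrFun u4 i) j
    simpa only [Matrix.add_apply, Matrix.smul_apply, Matrix.mul_diagonal, smul_eq_mul] using this
  have v1 := u5 2 0
  rw [n20] at v1
  have hNN : (N * N) 2 0 = N 2 1 * N 1 0 := by
    rw [Matrix.mul_apply, Fin.sum_univ_three, n20]
    ring
  rw [hNN] at v1
  have hd0 : d' = 0 := by
    have : (N 2 1 * N 1 0 * (θ 0 - θ 1)) * d' = (N 2 1 * N 1 0 * (θ 0 - θ 1)) * 0 := by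
      linear_combination -v1
    exact mul_left_cancel₀ (mul_ne_zero (mul_ne_zero n21 n10) hp) this
  have v2 := u5 1 0
  have v3 := u5 1 2
  rw [hd0] at v2 v3
  have w2 : α + d * (θ 0 - θ 1) - α' = 0 := by
    apply mul_left_cancel₀ (mul_ne_zero n10 hp)
    linear_combination v2
  have w3 : α + d * (θ 2 - θ 1) - α' = 0 := by
    apply mul_left_cancel₀ (mul_ne_zero n12 hr)
    linear_combination v3
  have hd1 : d = 0 := by
    apply mul_left_cancel₀ hpr
    linear_combination w2 - w3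
  have hαα : α' = α := by
    rw [hd1] at w2
    linear_combination -w2
  refine ⟨s, s', α, ?_, ?_⟩
  · rw [← hX, ← hY, u1, hd1, zero_smul, add_zero]
  · rw [← hX, ← hY, u2, hd0, zero_smul, add_zero, hαα]

/-- A Leonard pair on a three-dimensional space satisfies the Askey-Wilson relations for every
`β`. -/
theorem LP.aw_three {A B : Module.End K V} (h : LP 3 A B) (β : K) :
    ∃ γ γ' ρ ρ' ω η η' : K, AWRelations A B β γ γ' ρ ρ' ω η η' := by
  obtain ⟨s, s', e, h1, h2⟩ := h.sandwich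
  obtain ⟨⟨b, _, _⟩, _⟩ := h
  obtain ⟨X, hX⟩ : ∃ X, X = A - s • 1 := ⟨_, rfl⟩
  obtain ⟨Y, hY⟩ : ∃ Y, Y = B - s' • 1 := ⟨_, rfl⟩
  rw [← hX, ← hY] at h1 h2
  have c := satisfyAW_of_matrix b (ch3 (LinearMap.toMatrixAlgEquiv b X)
    (LinearMap.toMatrixAlgEquiv b Y))
  obtain ⟨γ, γ', ρ, ρ', ω, η, η', c⟩ : ∃ γ γ' ρ ρ' ω η η' : K,
    AWRelations X Y (-1) γ γ' ρ ρ' ω η η' := ⟨_, _, _, _, _, _, _, c⟩
  have c' : AWRelations X Y β γ γ' ρ ρ' (ω - (β + 1) * e) η η' := by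
    obtain ⟨c1, c2⟩ := c
    rw [h1] at c1
    rw [h2] at c2
    rw [← sub_eq_zero] at c1 c2
    constructor
    · rw [h1, ← sub_eq_zero, ← c1]
      module
    · rw [h2, ← sub_eq_zero, ← c2]
      module
  have c2 := (c'.shift s).symm.shift s'
  have hA : X + s • 1 = A := by rw [hX]; abel
  have hB : Y + s' • 1 = B := by rw [hY]; abel
  rw [hA, hB] at c2
  exact ⟨_, _, _, _, _, _, _, c2.symm⟩

end Pool.Agent.Lib.P38fcf4
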