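import Mathlib
import Pool.Agent.Lib.P38fcf4.Three
import Pool.Agent.Lib.P38fcf4.CaseC

set_option autoImplicit false

namespace Pool.Agent.Lib.P38fcf4

open Module Matrix

variable {K : Type*} [Field K] {V : Type*} [AddCommGroup V] [Module K V] {n : ℕ}

/-- the main family in unified form -/
def Unified (A B E : Module.End K V) : Prop :=
  ∃ β γ γ' ρ ρ' ω η η' x0 x1 x2 x3 x4 : K, AWRelations A B β γ γ' ρ ρ' ω η η' ∧
    x3 ≠ 0 ∧ x4 ≠ 0 ∧ x3 ^ 2 + x4 ^ 2 + β * x3 * x4 = 0 ∧ x1 * (x3 + x4) + γ' * x3 * x4 = 0 ∧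
    x2 * (x3 + x4) + γ * x3 * x4 = 0 ∧ x1 ^ 2 + ρ' * x3 * x4 ≠ 0 ∧ x2 ^ 2 + ρ * x3 * x4 ≠ 0 ∧
    E = elt x0 x1 x2 x3 x4 A B

theorem Unified.family {A B E : Module.End K V} (h : Unified A B E) :
    FamilyOne A B E ∨ FamilyTwo A B E := by
  obtain ⟨β, γ, γ', ρ, ρ', ω, η, η', x0, x1, x2, x3, x4, hAW, hx3, hx4, h1, h2, h3, hN', hN,
    rfl⟩ := h
  by_cases hβ : β = 2
  · right
    subst hβ
    have hs : (x3 + x4) ^ 2 = 0 := by linear_combination h1
    have hs' : x4 = -x3 := by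
      have := pow_eq_zero_iff (two_ne_zero) |>.mp hs
      linear_combination this
    subst hs'
    have hγ' : γ' = 0 := by
      apply mul_left_cancel₀ (mul_ne_zero hx3 hx3)
      linear_combination -h2
    have hγ : γ = 0 := by
      apply mul_left_cancel₀ (mul_ne_zero hx3 hx3)
      linear_combination -h3
    subst hγ hγ'
    refine ⟨ρ, ρ', ω, η, η', x0, x1, x2, x3, hAW, ?_, ?_, ?_⟩
    · intro h
      apply hN'
      linear_combination h
    · intro h
      apply hN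
      linear_combination h
    · unfold elt
      module
  · left
    have h2β : 2 - β ≠ 0 := sub_ne_zero.mpr (Ne.symm hβ)
    have hsq : (x3 + x4) ^ 2 = (2 - β) * (x3 * x4) := by linear_combination h1
    have hs : x3 + x4 ≠ 0 := by
      intro h0
      rw [h0] at hsq
      have : (2 - β) * (x3 * x4) ≠ 0 := mul_ne_zero h2β (mul_ne_zero hx3 hx4)
      apply this
      rw [← hsq]
      ring
    obtain ⟨τ, hτ⟩ : ∃ τ, γ = (2 - β) * τ := ⟨γ / (2 - β), by field_simp⟩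
    obtain ⟨τ', hτ'⟩ : ∃ τ', γ' = (2 - β) * τ' := ⟨γ' / (2 - β), by field_simp⟩
    have hx1 : x1 = -(x3 + x4) * τ' := by
      apply mul_right_cancel₀ hs
      rw [hτ'] at h2
      linear_combination h2 + τ' * hsq
    have hx2 : x2 = -(x3 + x4) * τ := by
      apply mul_right_cancel₀ hs
      rw [hτ] at h3
      linear_combination h3 + τ * hsq
    refine ⟨β, γ, γ', ρ, ρ', ω, η, η', -(x4 / x3), τ, τ', x3, x0 - (x3 + x4) * τ * τ', hAW, hβ,
      ?_, ?_, hτ, hτ', ?_, ?_, hx3, ?_⟩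
    · exact neg_ne_zero.mpr (div_ne_zero hx4 hx3)
    · field_simp
      linear_combination h1
    · intro h0
      apply hN
      rw [hx2]
      linear_combination τ ^ 2 * hsq + x3 * x4 * h0 - x3 * x4 * τ * hτ
    · intro h0
      apply hN'
      rw [hx1]
      linear_combination τ' ^ 2 * hsq + x3 * x4 * h0 - x3 * x4 * τ' * hτ'
    · have hx4' : x3 * (x4 / x3) = x4 := by field_simp
      have : x3 • ((A - τ • 1) * (B - τ' • 1) - -(x4 / x3) • ((B - τ' • 1) * (A - τ • 1)))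
          = x3 • ((A - τ • 1) * (B - τ' • 1)) + x4 • ((B - τ' • 1) * (A - τ • 1)) := by
        rw [neg_smul, sub_neg_eq_add, smul_add, smul_smul, hx4']
      rw [this, hx1, hx2]
      unfold elt
      simp only [mul_sub, sub_mul, smul_mul_assoc, mul_smul_comm, one_mul, mul_one]
      module

theorem FamilyOne.unified {A B E : Module.End K V} (h : FamilyOne A B E) : Unified A B E := by
  obtain ⟨β, γ, γ', ρ, ρ', ω, η, η', t, τ, τ', x, y, hAW, hβ, ht, hβt, hτ, hτ', hρ, hρ', hx,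
    rfl⟩ := h
  have hβt' : β * t = t ^ 2 + 1 := by
    rw [hβt]
    field_simp
  have hsq : (x + -t * x) ^ 2 = (2 - β) * (x * (-t * x)) := by
    linear_combination (-x ^ 2) * hβt'
  refine ⟨β, γ, γ', ρ, ρ', ω, η, η', y + (x + -t * x) * τ * τ', -(x + -t * x) * τ',
    -(x + -t * x) * τ, x, -t * x, hAW, hx, mul_ne_zero (neg_ne_zero.mpr ht) hx, ?_, ?_, ?_, ?_, ?_,
    ?_⟩
  · linear_combination (-x ^ 2) * hβt'
  · rw [hτ']
    linear_combination (-τ') * hsq
  · rw [hτ]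
    linear_combination (-τ) * hsq
  · intro h0
    apply hρ'
    have hxx : x * (-t * x) ≠ 0 := mul_ne_zero hx (mul_ne_zero (neg_ne_zero.mpr ht) hx)
    apply mul_left_cancel₀ hxx
    rw [mul_zero]
    linear_combination h0 - τ' ^ 2 * hsq + x * (-t * x) * τ' * hτ'
  · intro h0
    apply hρ
    have hxx : x * (-t * x) ≠ 0 := mul_ne_zero hx (mul_ne_zero (neg_ne_zero.mpr ht) hx)
    apply mul_left_cancel₀ hxx
    rw [mul_zero]
    linear_combination h0 - τ ^ 2 * hsq + x * (-t * x) * τ * hτ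
  · unfold elt
    simp only [mul_sub, sub_mul, smul_mul_assoc, mul_smul_comm, one_mul, mul_one]
    module

theorem FamilyTwo.unified {A B E : Module.End K V} (h : FamilyTwo A B E) :
    Unified A B E ∨ FamilyThree A B E := by
  obtain ⟨ρ, ρ', ω, η, η', x0, x1, x2, x3, hAW, h1, h2, rfl⟩ := h
  by_cases hx3 : x3 = 0
  · right
    subst hx3
    refine ⟨x0, x1, x2, ?_, ?_, ?_, Or.inr ⟨0, 0, ρ, ρ', ω, η, η', hAW, by ring⟩⟩
    · rintro rfl
      exact h1 (by ring)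
    · rintro rfl
      exact h2 (by ring)
    · rw [zero_smul, add_zero]
  · left
    refine ⟨2, 0, 0, ρ, ρ', ω, η, η', x0, x1, x2, x3, -x3, hAW, hx3, neg_ne_zero.mpr hx3,
      by ring, by ring, by ring, ?_, ?_, ?_⟩
    · intro h0
      apply h1
      linear_combination h0
    · intro h0
      apply h2
      linear_combination h0
    · unfold elt
      module

theorem Unified.compatible {A B E : Module.End K V} (h : Unified A B E) : Compatible A B E := by
  obtain ⟨β, γ, γ', ρ, ρ', ω, η, η', x0, x1, x2, x3, x4, hAW, hx3, hx4, h1, h2, h3, hN', hN,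
    rfl⟩ := h
  have r3 := key_iii (x0 := x0) hAW h1 h2 h3
  have r2 := key_ii (x0 := x0) hAW h1 h2 h3
  obtain ⟨γE, ρE, ωE, ηE, ηE', hA⟩ := key_iv (x0 := x0) hAW hx3 hx4 h1 h2 h3
  obtain ⟨δE, σE, ζE, κE, κE', hB⟩ := key_iv (x0 := x0) (x1 := x2) (x2 := x1) (x3 := x4)
    (x4 := x3) hAW.symm hx4 hx3 (by linear_combination h1) (by linear_combination h3)
    (by linear_combination h2)
  rw [← elt_symm] at hB
  obtain ⟨E, hE⟩ : ∃ E, E = elt x0 x1 x2 x3 x4 A B := ⟨_, rfl⟩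
  rw [← hE] at r2 r3 hA hB ⊢
  refine ⟨?_, ?_, ?_, ⟨_, _, _, _, _, _, _, _, hAW⟩, ⟨_, _, _, _, _, _, _, _, hB⟩,
    ⟨_, _, _, _, _, _, _, _, hA.symm⟩⟩
  · rw [hE]
    exact mem_span_five rfl
  · obtain ⟨N, hNN⟩ : ∃ N, N = x1 ^ 2 + ρ' * x3 * x4 := ⟨_, rfl⟩
    rw [← hNN] at r2 hN'
    refine mem_span_five (c0 := -(N⁻¹ * (x0 * x1 + η' * x3 * x4)))
      (c1 := -(N⁻¹ * (x1 * x2 + (x3 + x4) * x0 + ω * x3 * x4))) (c2 := N⁻¹ * x1)
      (c3 := N⁻¹ * x3) (c4 := N⁻¹ * x4) ?_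
    have e : A = N⁻¹ • (N • A) := by rw [smul_smul, inv_mul_cancel₀ hN', one_smul]
    have e2 : N • A = x1 • E + x4 • (E * B) + x3 • (B * E)
        - (x1 * x2 + (x3 + x4) * x0 + ω * x3 * x4) • B - (x0 * x1 + η' * x3 * x4) • 1 := by
      rw [r2]
      abel
    rw [e2] at e
    conv_lhs => rw [e]
    module
  · obtain ⟨N, hNN⟩ : ∃ N, N = x2 ^ 2 + ρ * x3 * x4 := ⟨_, rfl⟩
    rw [← hNN] at r3 hN
    refine mem_span_five (c0 := -(N⁻¹ * (x0 * x2 + η * x3 * x4)))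
      (c2 := -(N⁻¹ * (x1 * x2 + (x3 + x4) * x0 + ω * x3 * x4))) (c1 := N⁻¹ * x2)
      (c3 := N⁻¹ * x3) (c4 := N⁻¹ * x4) ?_
    have e : B = N⁻¹ • (N • B) := by rw [smul_smul, inv_mul_cancel₀ hN, one_smul]
    have e2 : N • B = x2 • E + x3 • (E * A) + x4 • (A * E)
        - (x1 * x2 + (x3 + x4) * x0 + ω * x3 * x4) • A - (x0 * x2 + η * x3 * x4) • 1 := by
      rw [r3]
      abel
    rw [e2] at e
    conv_lhs => rw [e]
    module

theorem FamilyThree.compatible {A B E : Module.End K V} (h : FamilyThree A B E)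
    (hLP : LP (finrank K V) A B) : Compatible A B E := by
  obtain ⟨x0, x1, x2, hx1, hx2, hE, hor⟩ := h
  have hiv : SatisfyAW A B ∧ SatisfyAW B E ∧ SatisfyAW E A := by
    rcases hor with hn | ⟨γ, γ', ρ, ρ', ω, η, η', hAW, hx⟩
    · rw [hn] at hLP
      obtain ⟨⟨b, _, _⟩, _⟩ := hLP
      exact ⟨satisfyAW_three b _ _, satisfyAW_three b _ _, satisfyAW_three b _ _⟩
    · have hE' : E = elt x0 x1 x2 0 0 A B := by
        rw [hE]
        unfold elt
        module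
      obtain ⟨γE, ρE, ωE, ηE, ηE', hA⟩ := keyC (x0 := x0) hAW rfl hx
      obtain ⟨δE, σE, ζE, κE, κE', hB⟩ := keyC (x0 := x0) hAW.symm rfl hx.symm
      rw [← elt_symm, ← hE'] at hB
      rw [← hE'] at hA
      exact ⟨⟨_, _, _, _, _, _, _, _, hAW⟩, ⟨_, _, _, _, _, _, _, _, hB⟩,
        ⟨_, _, _, _, _, _, _, _, hA.symm⟩⟩
  refine ⟨?_, ?_, ?_, hiv⟩
  · refine mem_span_five (c0 := x0) (c1 := x1) (c2 := x2) (c3 := 0) (c4 := 0) ?_
    rw [hE]
    module
  · refine mem_span_five (c0 := -(x1⁻¹ * x0)) (c1 := -(x1⁻¹ * x2)) (c2 := x1⁻¹) (c3 := 0)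
      (c4 := 0) ?_
    have e : A = x1⁻¹ • (x1 • A) := by rw [smul_smul, inv_mul_cancel₀ hx1, one_smul]
    have e2 : x1 • A = E - x0 • 1 - x2 • B := by
      rw [hE]
      abel
    rw [e2] at e
    conv_lhs => rw [e]
    module
  · refine mem_span_five (c0 := -(x2⁻¹ * x0)) (c2 := -(x2⁻¹ * x1)) (c1 := x2⁻¹) (c3 := 0)
      (c4 := 0) ?_
    have e : B = x2⁻¹ • (x2 • B) := by rw [smul_smul, inv_mul_cancel₀ hx2, one_smul]
    have e2 : x2 • B = E - x0 • 1 - x1 • A := by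
      rw [hE]
      abel
    rw [e2] at e
    conv_lhs => rw [e]
    module

/-- necessity, dimension at least three -/
theorem necessity {A B E : Module.End K V} (hn : 3 ≤ n) (hfin : finrank K V = n) (hLP : LP n A B)
    (h : Compatible A B E) : Unified A B E ∨ FamilyThree A B E := by
  obtain ⟨hi, hii, hiii, ⟨β, γ, γ', ρ, ρ', ω, η, η', hAW⟩, -, hEA⟩ := h
  obtain ⟨x0, x1, x2, x3, x4, hE⟩ := exists_of_mem_span_five hi
  obtain ⟨z0, z1, z2, z3, z4, hB⟩ := exists_of_mem_span_five hiii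
  obtain ⟨y0, y2, y1, y4, y3, hA⟩ := exists_of_mem_span_five hii
  obtain ⟨b, θ, M, hθ, hM, hbA, hbB⟩ := hLP.data
  obtain ⟨b', θ', M', hθ', hM', hbB', hbA'⟩ := hLP.symm.data
  have hE1 : E = elt x0 x1 x2 x3 x4 A B := hE
  have hE2 : E = elt x0 x2 x1 x4 x3 B A := by rw [hE1, elt_symm]
  -- matrix forms
  have m1 : LinearMap.toMatrixAlgEquiv b E = elt x0 x1 x2 x3 x4 (diagonal θ) M := by
    have := elt_map (LinearMap.toMatrixAlgEquiv b).toAlgHom x0 x1 x2 x3 x4 A B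
    rw [← hE1] at this
    change LinearMap.toMatrixAlgEquiv b E = elt x0 x1 x2 x3 x4 (LinearMap.toMatrixAlgEquiv b A)
      (LinearMap.toMatrixAlgEquiv b B) at this
    rw [this, hbA, hbB]
  have m2 : LinearMap.toMatrixAlgEquiv b' E = elt x0 x2 x1 x4 x3 (diagonal θ') M' := by
    have := elt_map (LinearMap.toMatrixAlgEquiv b').toAlgHom x0 x2 x1 x4 x3 B A
    rw [← hE2] at this
    change LinearMap.toMatrixAlgEquiv b' E = elt x0 x2 x1 x4 x3 (LinearMap.toMatrixAlgEquiv b' B)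
      (LinearMap.toMatrixAlgEquiv b' A) at this
    rw [this, hbB', hbA']
  have k1 : M = z0 • 1 + z1 • elt x0 x1 x2 x3 x4 (diagonal θ) M + z2 • diagonal θ
      + z3 • (elt x0 x1 x2 x3 x4 (diagonal θ) M * diagonal θ)
      + z4 • (diagonal θ * elt x0 x1 x2 x3 x4 (diagonal θ) M) := by
    have := congrArg (LinearMap.toMatrixAlgEquiv b) hB
    simp only [map_add, map_smul, map_mul, map_one] at this
    rwa [m1, hbA, hbB] at this
  have k2 : M' = y0 • 1 + y1 • elt x0 x2 x1 x4 x3 (diagonal θ') M' + y2 • diagonal θ'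
      + y3 • (elt x0 x2 x1 x4 x3 (diagonal θ') M' * diagonal θ')
      + y4 • (diagonal θ' * elt x0 x2 x1 x4 x3 (diagonal θ') M') := by
    have := congrArg (LinearMap.toMatrixAlgEquiv b') hA
    simp only [map_add, map_smul, map_mul, map_one] at this
    rw [m2, hbA', hbB'] at this
    conv_lhs => rw [this]
    abel
  have hAWb : ∀ {β γ γ' ρ ρ' ω η η' : K}, AWRelations A B β γ γ' ρ ρ' ω η η' →
      AWRelations (diagonal θ) M β γ γ' ρ ρ' ω η η' := by
    intro β γ γ' ρ ρ' ω η η' hAW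
    have := hAW.map (LinearMap.toMatrixAlgEquiv b).toAlgHom
    change AWRelations (LinearMap.toMatrixAlgEquiv b A) (LinearMap.toMatrixAlgEquiv b B) _ _ _ _ _
      _ _ _ at this
    rwa [hbA, hbB] at this
  have hAWb' : ∀ {β γ γ' ρ ρ' ω η η' : K}, AWRelations A B β γ γ' ρ ρ' ω η η' →
      AWRelations (diagonal θ') M' β γ' γ ρ' ρ ω η' η := by
    intro β γ γ' ρ ρ' ω η η' hAW
    have := hAW.symm.map (LinearMap.toMatrixAlgEquiv b').toAlgHom
    change AWRelations (LinearMap.toMatrixAlgEquiv b' B) (LinearMap.toMatrixAlgEquiv b' A) _ _ _ _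
      _ _ _ _ at this
    rwa [hbA', hbB'] at this
  rcases one_sided0 hn hθ hM k1 with ⟨hx3, hx4, hx2⟩ | ⟨hx3, hx4⟩
  · -- linear case
    right
    have hx1 : x1 ≠ 0 := by
      rcases one_sided0 hn hθ' hM' k2 with ⟨-, -, h⟩ | ⟨h, -⟩
      · exact h
      · exact absurd hx4 h
    refine ⟨x0, x1, x2, hx1, hx2, ?_, ?_⟩
    · rw [hE, hx3, hx4]
      module
    · rcases Nat.lt_or_ge n 4 with hlt | hge
      · left
        omega
      · right
        obtain ⟨βE, δ1, δ2, σ1, σ2, ζ, κ1, κ2, hEA⟩ := hEA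
        have h1 := hEA.symm.map (LinearMap.toMatrixAlgEquiv b).toAlgHom
        change AWRelations (LinearMap.toMatrixAlgEquiv b A) (LinearMap.toMatrixAlgEquiv b E) _ _ _
          _ _ _ _ _ at h1
        rw [hbA, m1, hx3, hx4] at h1
        obtain ⟨hβ, hγ⟩ := caseC hge hθ hM (hAWb hAW) h1 hx1 hx2
        subst hβ
        exact ⟨γ, γ', ρ, ρ', ω, η, η', hAW, hγ⟩
  · left
    -- choose the Askey-Wilson scalars
    obtain ⟨β, γ, γ', ρ, ρ', ω, η, η', hAW, hor⟩ : ∃ β γ γ' ρ ρ' ω η η' : K,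
        AWRelations A B β γ γ' ρ ρ' ω η η' ∧ (4 ≤ n ∨ x3 ^ 2 + x4 ^ 2 + β * x3 * x4 = 0) := by
      rcases Nat.lt_or_ge n 4 with hlt | hge
      · have hn3 : n = 3 := by omega
        subst hn3
        obtain ⟨γ, γ', ρ, ρ', ω, η, η', hAW⟩ := hLP.aw_three (-(x3 ^ 2 + x4 ^ 2) / (x3 * x4))
        refine ⟨_, γ, γ', ρ, ρ', ω, η, η', hAW, Or.inr ?_⟩
        field_simp
        ring
      · exact ⟨β, γ, γ', ρ, ρ', ω, η, η', hAW, Or.inl hge⟩
    obtain ⟨q1, q2, s, t, hP, hst⟩ := one_sided hn hθ hM (hAWb hAW).1 k1 hx3 hx4 hor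
    obtain ⟨-, q3, s', t', hP', hst'⟩ := one_sided hn hθ' hM' (hAWb' hAW).1 k2 hx4 hx3
      (by
        rcases hor with h | h
        · exact Or.inl h
        · right
          linear_combination h)
    refine ⟨β, γ, γ', ρ, ρ', ω, η, η', x0, x1, x2, x3, x4, hAW, hx3, hx4, q1, q2,
      by linear_combination q3, ?_, ?_, hE1⟩
    · intro h0
      apply hst'
      linear_combination h0 + (s' + t') * q2 + x3 * x4 * hP' + s' * t' * q1
    · intro h0
      apply hst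
      linear_combination h0 + (s + t) * q3 + x3 * x4 * hP + s * t * q1

end Pool.Agent.Lib.P38fcf4
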