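import Mathlib
import Pool.Agent.Lib.P38fcf4.Main

set_option autoImplicit false

namespace Pool.Agent.Lib.P38fcf4

open Module Matrix

variable {K : Type*} [Field K] {V : Type*} [AddCommGroup V] [Module K V] {n : ℕ}

theorem LP.no_common {A B : Module.End K V} (h : LP n A B) (hn : 2 ≤ n) {v : V} (hv : v ≠ 0)
    {a s : K} (hA : A v = a • v) (hB : B v = s • v) : False := by
  obtain ⟨⟨b', h1, h2⟩, ⟨b, h3, h4⟩⟩ := h
  have hθ := eigen_injective h4 h1
  obtain ⟨i0, hi0⟩ : ∃ i : Fin n, (i : ℕ) = 0 := ⟨⟨0, by omega⟩, rfl⟩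
  obtain ⟨i1, hi1⟩ : ∃ i : Fin n, (i : ℕ) = 1 := ⟨⟨1, by omega⟩, rfl⟩
  have hne : i0 ≠ i1 := fun h => by rw [h] at hi0; omega
  have hv0 : b.repr v i0 ≠ 0 := by
    intro h0
    apply hv
    apply eigen_zero h3 hB
    intro i hi
    have : i = i0 := Fin.ext (by omega)
    rw [this]
    exact h0
  -- coordinates of `A v`
  have hAc : ∀ i, LinearMap.toMatrix b b A i i * b.repr v i = a * b.repr v i := by
    intro i
    have e := congrFun (LinearMap.toMatrix_mulVec_repr b b A v) i
    rw [hA, map_smul, Finsupp.smul_apply, Matrix.mulVec, dotProduct,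
      Finset.sum_eq_single i] at e
    · exact e
    · intro l _ hl
      rw [h4 (Ne.symm hl), zero_mul]
    · intro hi
      exact absurd (Finset.mem_univ i) hi
  have ha : LinearMap.toMatrix b b A i0 i0 = a := mul_right_cancel₀ hv0 (hAc i0)
  have hz : ∀ i, i ≠ i0 → b.repr v i = 0 := by
    intro i hi
    by_contra h0
    have : LinearMap.toMatrix b b A i i = a := mul_right_cancel₀ h0 (hAc i)
    exact hi (hθ (by simp only [this, ha]))
  have e := congrFun (LinearMap.toMatrix_mulVec_repr b b B v) i1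
  rw [hB, map_smul, Finsupp.smul_apply, hz i1 (Ne.symm hne), smul_zero, Matrix.mulVec, dotProduct,
    Finset.sum_eq_single i0] at e
  · rcases mul_eq_zero.mp e with h | h
    · exact h3.2 i1 i0 (Or.inr (by omega)) h
    · exact hv0 h
  · intro l _ hl
    rw [hz l hl, mul_zero]
  · intro hi
    exact absurd (Finset.mem_univ _) hi

/-- an eigenvector of `X` and `Y` is an eigenvector of each element of the span -/
theorem eigen_of_mem_span {X Y Z : Module.End K V} {v : V} {a c : K} (hX : X v = a • v)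
    (hY : Y v = c • v) (hZ : Z ∈ Submodule.span K {1, X, Y, X * Y, Y * X}) :
    ∃ s : K, Z v = s • v := by
  obtain ⟨c0, c1, c2, c3, c4, rfl⟩ := exists_of_mem_span_five hZ
  refine ⟨c0 + c1 * a + c2 * c + c3 * (a * c) + c4 * (a * c), ?_⟩
  simp only [LinearMap.add_apply, LinearMap.smul_apply, Module.End.one_apply, Module.End.mul_apply,
    hX, hY, map_smul]
  module

theorem mem_span_of_two {X E : Module.End K V} {b : Basis (Fin 2) K V}
    (hX : (LinearMap.toMatrix b b X).IsDiag)
    (hθ : Function.Injective fun i => LinearMap.toMatrix b b X i i)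
    (hE01 : LinearMap.toMatrix b b E 0 1 ≠ 0) (hE10 : LinearMap.toMatrix b b E 1 0 ≠ 0)
    (Z : Module.End K V) : Z ∈ Submodule.span K {1, E, X, E * X, X * E} := by
  obtain ⟨z0, z1, z2, z3, hZ⟩ := span_two (θ := fun i => LinearMap.toMatrix b b X i i)
    (fun h => absurd (hθ h) (by decide)) (E := LinearMap.toMatrixAlgEquiv b E) hE01 hE10
    (LinearMap.toMatrixAlgEquiv b Z)
  refine mem_span_five (c0 := z0) (c1 := z1) (c2 := z2) (c3 := z3) (c4 := 0) ?_
  rw [zero_smul, add_zero]
  apply (LinearMap.toMatrixAlgEquiv b).injective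
  simp only [map_add, map_smul, map_mul, map_one]
  rw [hZ, toMatrix_eq_diagonal hX]

theorem entry_ne_zero {X E : Module.End K V} {b : Basis (Fin 2) K V}
    (hX : (LinearMap.toMatrix b b X).IsDiag)
    (h : ∀ v : V, v ≠ 0 → ∀ c : K, E v = c • v → ∀ a : K, X v ≠ a • v) {i j : Fin 2}
    (hij : i ≠ j) : LinearMap.toMatrix b b E i j ≠ 0 := by
  intro h0
  have hE : E (b j) = LinearMap.toMatrix b b E j j • b j := by
    conv_lhs => rw [← b.sum_repr (E (b j))]
    rw [Finset.sum_eq_single j]
    · rw [LinearMap.toMatrix_apply]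
    · intro k _ hk
      have hki : k = i := by
        have h1 := i.2
        have h2 := j.2
        have h3 := k.2
        apply Fin.ext
        have h4 : (i : ℕ) ≠ j := fun h => hij (Fin.ext h)
        have h5 : (k : ℕ) ≠ j := fun h => hk (Fin.ext h)
        omega
      rw [LinearMap.toMatrix_apply] at h0
      rw [hki, h0, zero_smul]
    · intro hi
      exact absurd (Finset.mem_univ _) hi
  exact h (b j) (b.ne_zero j) _ hE _ (apply_basis_of_isDiag hX j)

theorem compatible_two {A B : Module.End K V} (hLP : LP 2 A B) (E : Module.End K V) :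
    Compatible A B E ↔ ∀ v : V, v ≠ 0 → ∀ c : K, E v = c • v →
      (∀ a : K, A v ≠ a • v) ∧ ∀ a : K, B v ≠ a • v := by
  constructor
  · rintro ⟨-, hii, hiii, -⟩ v hv c hE
    constructor
    · intro a hA
      obtain ⟨s, hs⟩ := eigen_of_mem_span hE hA hiii
      exact hLP.no_common le_rfl hv hA hs
    · intro a hB
      obtain ⟨s, hs⟩ := eigen_of_mem_span hB hE hii
      exact hLP.no_common le_rfl hv hs hB
  · intro h
    obtain ⟨⟨b', h1, h2⟩, ⟨b, h3, h4⟩⟩ := hLP
    have hθ := eigen_injective h4 h1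
    have hθ' := eigen_injective h2 h3
    have hA : ∀ v : V, v ≠ 0 → ∀ c : K, E v = c • v → ∀ a : K, A v ≠ a • v :=
      fun v hv c hc => (h v hv c hc).1
    have hB : ∀ v : V, v ≠ 0 → ∀ c : K, E v = c • v → ∀ a : K, B v ≠ a • v :=
      fun v hv c hc => (h v hv c hc).2
    refine ⟨?_, ?_, ?_, satisfyAW_two b _ _, satisfyAW_two b _ _, satisfyAW_two b _ _⟩
    · have := mem_span_of_two h4 hθ (h3.2 0 1 (Or.inl (by norm_num)))
        (h3.2 1 0 (Or.inr (by norm_num))) E
      obtain ⟨c0, c1, c2, c3, c4, e⟩ := exists_of_mem_span_five this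
      refine mem_span_five (c0 := c0) (c1 := c2) (c2 := c1) (c3 := c4) (c4 := c3) ?_
      rw [e]
      abel
    · have := mem_span_of_two h2 hθ' (entry_ne_zero h2 hB (i := 0) (j := 1) (by decide))
        (entry_ne_zero h2 hB (i := 1) (j := 0) (by decide)) A
      obtain ⟨c0, c1, c2, c3, c4, e⟩ := exists_of_mem_span_five this
      refine mem_span_five (c0 := c0) (c1 := c2) (c2 := c1) (c3 := c4) (c4 := c3) ?_
      conv_lhs => rw [e]
      abel
    · exact mem_span_of_two h4 hθ (entry_ne_zero h4 hA (i := 0) (j := 1) (by decide))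
        (entry_ne_zero h4 hA (i := 1) (j := 0) (by decide)) B

end Pool.Agent.Lib.P38fcf4
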